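import Pool.Agent.Y672.DM.Theta

/-!
# The coefficients of the dihedral Maass form of `ℚ(√5)`: definitions

`m + n φ ∈ ℤ[φ]` is represented by the pair `(m, n)`; `nm` is the norm, `cls` the class modulo
`√5`, `em`, `em'` the two real embeddings (all defined in `Pool.Agent.Y672.DM.Theta`).
-/

set_option autoImplicit false

open Complex

namespace Pool.Agent.Y672.DM

open scoped Real
open scoped goldenRatio

/-- `log |α / α'|` -/
noncomputable def lam (p : ℤ × ℤ) : ℝ := Real.log |em p / em' p|

/-- the period `log |φ² / φ'²| = 4 log φ` -/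
noncomputable def PP : ℝ := 4 * Real.log φ

/-- the spectral parameter -/
noncomputable def t0 : ℝ := π / (2 * Real.log φ)

/-- the quadratic residue symbol modulo 5 -/
def c5 (b : ZMod 5) : ℤ := if b = 0 then 0 else if b = 1 ∨ b = 4 then 1 else -1

/-- the Hecke character `α ↦ (α / √5) |α / α'|^{-i t0}` -/
noncomputable def gg (p : ℤ × ℤ) : ℂ :=
  (c5 (cls p) : ℂ) * cexp (-I * t0 * lam p)

/-- the elements of norm `± n` modulo multiplication by `φ²` -/
def RR (n : ℕ) : Set (ℤ × ℤ) := {p | (nm p).natAbs = n ∧ 0 ≤ lam p ∧ lam p < PP}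

/-- four times the `n`-th coefficient -/
noncomputable def bb (n : ℕ) : ℂ := if n = 0 then 0 else ∑' p : RR n, gg p

end Pool.Agent.Y672.DM
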