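import Pool.Agent.Y96.DMF.Main

/-!
# Constant terms over several periods
-/

set_option autoImplicit false

open Complex MeasureTheory

namespace Pool.Agent.Y672.DM

open scoped Real

lemma FF_cont_x (f : ZMod 5 → ℂ) {y : ℝ} (hy : 0 < y) :
    Continuous fun x : ℝ => FF f ((x : ℂ) + y * Complex.I) := by
  obtain ⟨C, hC⟩ := Pool.Agent.Y96.DMF.f_bdd f
  have e : (fun x : ℝ => FF f ((x : ℂ) + y * Complex.I)) =
      fun x : ℝ => ∑' p : ℤ × ℤ, cexp (2 * π * I * nm p / 5 * x) * Pool.Agent.Y96.DMF.cc f y p :=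
    funext fun x => (Pool.Agent.Y96.DMF.FF_hasSum f x hy).tsum_eq.symm
  rw [e]
  refine continuous_tsum (u := fun p => √y * (C * Pool.Agent.Y96.DMF.GG y p) * PP) (fun p => by fun_prop)
    ((((Pool.Agent.Y96.DMF.GG_sum hy).mul_left C).mul_left _).mul_right _) fun p x => ?_
  have h1 : (2 * π * I * nm p / 5 * x : ℂ) = ((2 * π * nm p / 5 * x : ℝ) : ℂ) * I := by
    push_cast
    ring
  rw [norm_mul, h1, Complex.norm_exp_ofReal_mul_I, one_mul]
  exact Pool.Agent.Y96.DMF.cc_le f hC hy p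

theorem FF_const_k (f : ZMod 5 → ℂ) (x0 : ℝ) (k : ℕ) {y : ℝ} (hy : 0 < y) :
    ∫ x in x0..(x0 + 5 * k), FF f ((x : ℂ) + y * Complex.I) = 0 := by
  induction k with
  | zero => simp
  | succ k ih =>
    have hc := FF_cont_x f hy
    rw [← intervalIntegral.integral_add_adjacent_intervals (b := x0 + 5 * k)
      (hc.intervalIntegrable _ _) (hc.intervalIntegrable _ _), ih, zero_add]
    have := Pool.Agent.Y96.DMF.FF_const f (x0 + 5 * k) hy
    rw [show x0 + 5 * ((k + 1 : ℕ) : ℝ) = x0 + 5 * k + 5 by push_cast; ring]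
    exact this

end Pool.Agent.Y672.DM
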