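import Pool.Agent.Y672.DM.Stm

/-!
# Counting quadratic characters; uniqueness of the continuation
-/

set_option autoImplicit false

open Complex Filter Topology

namespace Pool.Agent.Y672.DM

lemma quadChars_finite (x : ℝ) : (quadChars x).Finite := by
  have h : quadChars x ⊆ ⋃ m ∈ Set.Ioo 0 (Nat.ceil x), (Sigma.mk m) '' (Set.univ : Set (DirichletCharacter ℂ m)) := by
    rintro ⟨m, χ⟩ ⟨h1, h2, -⟩
    simp only [Set.mem_iUnion]
    exact ⟨m, ⟨h1, Nat.lt_ceil.2 h2⟩, χ, trivial, rfl⟩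
  refine Set.Finite.subset ?_ h
  refine (Set.finite_Ioo 0 _).biUnion fun m hm => ?_
  have : NeZero m := ⟨hm.1.ne'⟩
  exact Set.Finite.image _ Set.finite_univ

lemma unique_cont {f : ℕ → ℂ → ℂ} {L L' : ℂ → ℂ} (h : Differentiable ℂ L) (h' : Differentiable ℂ L')
    (hs : ∀ s : ℂ, 1 < s.re → HasSum (fun n => f n s) (L s))
    (hs' : ∀ s : ℂ, 1 < s.re → HasSum (fun n => f n s) (L' s)) : L = L' := by
  have hL : AnalyticOnNhd ℂ L Set.univ := fun z _ => (h.analyticAt z)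
  have hL' : AnalyticOnNhd ℂ L' Set.univ := fun z _ => (h'.analyticAt z)
  refine AnalyticOnNhd.eq_of_eventuallyEq hL hL' (z₀ := 2) ?_
  have hopen : IsOpen {s : ℂ | 1 < s.re} := isOpen_lt continuous_const Complex.continuous_re
  filter_upwards [hopen.mem_nhds (show (1 : ℝ) < (2 : ℂ).re by norm_num)] with s hs1
  exact (hs s hs1).unique (hs' s hs1)

lemma not_centralNonzero (a : ℕ → ℂ) (c : Σ m : ℕ, DirichletCharacter ℂ m)
    (h : ∃ L : ℂ → ℂ, Differentiable ℂ L ∧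
      (∀ s : ℂ, 1 < s.re → HasSum (fun n : ℕ => a n * c.2 n * (n : ℂ) ^ (-s)) (L s)) ∧ L (1 / 2) = 0) :
    ¬ CentralNonzero a c := by
  obtain ⟨L, h1, h2, h3⟩ := h
  rintro ⟨L', h1', h2', h3'⟩
  apply h3'
  rw [← unique_cont h1 h1' h2 h2']
  exact h3

/-- the quadratic character modulo an odd prime -/
lemma exists_quad {p : ℕ} (hp : p.Prime) (h2 : p ≠ 2) : ∃ χ : DirichletCharacter ℂ p,
    χ.IsPrimitive ∧ χ ^ 2 = 1 ∧ χ ≠ 1 := by
  have : Fact p.Prime := ⟨hp⟩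
  have hc : ringChar (ZMod p) ≠ 2 := by
    rw [ZMod.ringChar_zmod_n]; exact h2
  obtain ⟨χ, hχ⟩ : ∃ χ : DirichletCharacter ℂ p, χ = (quadraticChar (ZMod p)).ringHomComp (Int.castRingHom ℂ) := ⟨_, rfl⟩
  have h3 : χ ≠ 1 := by
    obtain ⟨a, ha⟩ := quadraticChar_exists_neg_one hc
    intro h
    have h4 : χ a = -1 := by
      rw [hχ, MulChar.ringHomComp_apply, ha]; simp
    have hu : IsUnit a := by
      by_contra hu
      rw [MulChar.map_nonunit _ hu] at ha
      norm_num at ha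
    rw [h, MulChar.one_apply hu] at h4
    norm_num at h4
  refine ⟨χ, ?_, ?_, h3⟩
  · have h5 := DirichletCharacter.conductor_dvd_level χ
    rcases (Nat.dvd_prime hp).1 h5 with h | h
    · exact absurd (DirichletCharacter.eq_one_iff_conductor_eq_one.2 h) h3
    · exact h
  · ext a
    rw [hχ, MulChar.one_apply a.isUnit, MulChar.pow_apply_coe, MulChar.ringHomComp_apply]
    have := quadraticChar_sq_one (F := ZMod p) a.ne_zero
    rw [← map_pow, this]
    simp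

lemma cntAll_mono {x y : ℝ} (h : x ≤ y) : cntAll x ≤ cntAll y :=
  Set.ncard_le_ncard (fun _ hc => ⟨hc.1, hc.2.1.trans_le h, hc.2.2⟩) (quadChars_finite y)

/-- there are infinitely many quadratic fields -/
lemma cntAll_tendsto : Tendsto cntAll atTop atTop := by
  refine tendsto_atTop_atTop.2 fun K => ?_
  have hinf : {p : ℕ | p.Prime ∧ p ≠ 2}.Infinite := by
    have h1 := Nat.infinite_setOfPred_prime.sdiff (Set.finite_singleton 2)
    exact h1.mono fun p hp => ⟨hp.1, hp.2⟩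
  obtain ⟨F, hF, hK⟩ := hinf.exists_subset_card_eq K
  have hex : ∀ p : ℕ, ∃ χ : DirichletCharacter ℂ p, p.Prime → p ≠ 2 →
      (χ.IsPrimitive ∧ χ ^ 2 = 1 ∧ χ ≠ 1) := by
    intro p
    by_cases h : p.Prime ∧ p ≠ 2
    · obtain ⟨χ, hχ⟩ := exists_quad h.1 h.2
      exact ⟨χ, fun _ _ => hχ⟩
    · exact ⟨1, fun h1 h2 => absurd ⟨h1, h2⟩ h⟩
  choose χ hχ using hex
  refine ⟨(F.sup id : ℕ) + 1, fun x hx => ?_⟩
  have hsub : (fun p : ℕ => (⟨p, χ p⟩ : Σ m : ℕ, DirichletCharacter ℂ m)) '' (F : Set ℕ) ⊆ quadChars x := by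
    rintro _ ⟨p, hp, rfl⟩
    obtain ⟨h1, h2⟩ := hF hp
    refine ⟨h1.pos, ?_, hχ p h1 h2⟩
    have h3 : p ≤ F.sup id := Finset.le_sup (f := id) hp
    have h4 : (p : ℝ) ≤ (F.sup id : ℕ) := by exact_mod_cast h3
    show (p : ℝ) < x
    linarith
  have h5 := Set.ncard_le_ncard hsub (quadChars_finite x)
  rw [Set.ncard_image_of_injective, Set.ncard_coe_finset, hK] at h5
  · exact h5
  · intro p q h
    exact congrArg Sigma.fst h

end Pool.Agent.Y672.DM
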