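import Pool.Agent.Y672.DM.SL2

/-!
# Level 25: invariance and the cusps
-/

set_option autoImplicit false

open Complex UpperHalfPlane ModularGroup MatrixGroups Matrix

namespace Pool.Agent.Y672.DM

open scoped Real

/-- `5 z` -/
noncomputable def w5 (z : ℍ) : ℍ := ⟨5 * (z : ℂ), by
  have : (5 * (z : ℂ)).im = 5 * z.im := by simp
  rw [this]
  have := z.im_pos
  positivity⟩

/-- `(z + β) / 5` -/
noncomputable def wd (β : ℤ) (z : ℍ) : ℍ := ⟨((z : ℂ) + β) / 5, by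
  have : (((z : ℂ) + β) / 5).im = z.im / 5 := by
    rw [show (((z : ℂ) + β) / 5) = ((1 / 5 : ℝ) : ℂ) * ((z : ℂ) + β) by push_cast; ring, im_ofReal_mul]
    simp
    ring
  rw [this]
  have := z.im_pos
  positivity⟩

lemma coe_w5 (z : ℍ) : ((w5 z : ℍ) : ℂ) = 5 * (z : ℂ) := rfl

lemma coe_wd (β : ℤ) (z : ℍ) : ((wd β z : ℍ) : ℂ) = ((z : ℂ) + β) / 5 := rfl

lemma coe_act (g : SL(2, ℤ)) (z : ℍ) :
    ((g • z : ℍ) : ℂ) = ((g 0 0 : ℂ) * z + g 0 1) / ((g 1 0 : ℂ) * z + g 1 1) := by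
  rw [coe_specialLinearGroup_apply]
  simp

lemma denom_ne (g : SL(2, ℤ)) (z : ℍ) : ((g 1 0 : ℂ) * z + g 1 1) ≠ 0 := by
  have := UpperHalfPlane.denom_ne_zero (g : GL (Fin 2) ℝ) z
  simpa [UpperHalfPlane.denom] using this

/-- a matrix with given entries -/
def mkSL (a b c d : ℤ) (h : a * d - b * c = 1) : SL(2, ℤ) :=
  ⟨!![a, b; c, d], by rw [Matrix.det_fin_two_of]; exact h⟩

lemma mkSL00 (a b c d : ℤ) (h : a * d - b * c = 1) : (mkSL a b c d h) 0 0 = a := rfl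
lemma mkSL01 (a b c d : ℤ) (h : a * d - b * c = 1) : (mkSL a b c d h) 0 1 = b := rfl
lemma mkSL10 (a b c d : ℤ) (h : a * d - b * c = 1) : (mkSL a b c d h) 1 0 = c := rfl
lemma mkSL11 (a b c d : ℤ) (h : a * d - b * c = 1) : (mkSL a b c d h) 1 1 = d := rfl

/-- the case `5 ∣ c` -/
lemma lift_dvd (γ : SL(2, ℤ)) (h : (5 : ℤ) ∣ γ 1 0) : ∃ g : SL(2, ℤ), g 0 0 = γ 0 0 ∧ g 0 1 = 5 * γ 0 1 ∧
    5 * g 1 0 = γ 1 0 ∧ g 1 1 = γ 1 1 ∧ ∀ z : ℍ, 5 * ((γ • z : ℍ) : ℂ) = ((g • w5 z : ℍ) : ℂ) := by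
  obtain ⟨k, hk⟩ := h
  have hdet := γ.det_coe
  rw [Matrix.det_fin_two] at hdet
  have hd : γ 0 0 * γ 1 1 - 5 * γ 0 1 * k = 1 := by
    rw [hk] at hdet
    linarith
  refine ⟨mkSL (γ 0 0) (5 * γ 0 1) k (γ 1 1) hd, rfl, rfl, hk.symm, rfl, fun z => ?_⟩
  rw [coe_act, coe_act, coe_w5, mkSL00, mkSL01, mkSL10, mkSL11, hk]
  push_cast
  ring

/-- the case `5 ∤ c` -/
lemma lift_ndvd (γ : SL(2, ℤ)) (h : ¬ (5 : ℤ) ∣ γ 1 0) : ∃ (g : SL(2, ℤ)) (β : ℤ),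
    ∀ z : ℍ, 5 * ((γ • z : ℍ) : ℂ) = ((g • wd β z : ℍ) : ℂ) := by
  have hdet := γ.det_coe
  rw [Matrix.det_fin_two] at hdet
  obtain ⟨β, y, hy⟩ : ∃ β y : ℤ, γ 1 0 * β + 5 * y = γ 1 1 := by
    have hp : Prime (5 : ℤ) := by norm_num
    have hc : IsCoprime (γ 1 0) 5 := ((Prime.coprime_iff_not_dvd hp).2 h).symm
    obtain ⟨u, v, huv⟩ := hc
    exact ⟨u * γ 1 1, v * γ 1 1, by linear_combination (γ 1 1) * huv⟩
  have hd : 5 * γ 0 0 * y - (γ 0 1 - γ 0 0 * β) * γ 1 0 = 1 := by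
    linear_combination (γ 0 0) * hy + hdet
  refine ⟨mkSL (5 * γ 0 0) (γ 0 1 - γ 0 0 * β) (γ 1 0) y hd, β, fun z => ?_⟩
  rw [coe_act, coe_act, coe_wd, mkSL00, mkSL01, mkSL10, mkSL11]
  have h1 : ((γ 1 1 : ℤ) : ℂ) = γ 1 0 * β + 5 * y := by rw [← hy]; push_cast; ring
  have h2 := denom_ne γ z
  have h3 : (((γ 1 0 : ℤ) : ℂ) * (((z : ℂ) + β) / 5) + ((y : ℤ) : ℂ)) =
    (((γ 1 0 : ℤ) : ℂ) * z + (γ 1 1 : ℤ)) / 5 := by
    rw [h1]; ring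
  rw [h3]
  field_simp
  push_cast
  ring

lemma vg_triv (g : SL(2, ℤ)) (h1 : (5 : ℤ) ∣ g 0 1) (h2 : (5 : ℤ) ∣ g 1 0) : vg g = cc := by
  funext x
  unfold vg vv cc
  have e1 : ((g 0 1 : ℤ) : ZMod 5) = 0 := (ZMod.intCast_zmod_eq_zero_iff_dvd _ _).2 (by exact_mod_cast h1)
  have e2 : ((g 1 0 : ℤ) : ZMod 5) = 0 := (ZMod.intCast_zmod_eq_zero_iff_dvd _ _).2 (by exact_mod_cast h2)
  rw [e1, e2, if_pos rfl]
  simp [e5_zero]

/-- invariance under `Γ₀(25)` -/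
theorem FF_Gamma0 (γ : SL(2, ℤ)) (hγ : γ ∈ CongruenceSubgroup.Gamma0 25) (z : ℍ) :
    FF cc (5 * ((γ • z : ℍ) : ℂ)) = FF cc (5 * (z : ℂ)) := by
  have h25 : (25 : ℤ) ∣ γ 1 0 := by
    have := CongruenceSubgroup.Gamma0_mem.1 hγ
    exact_mod_cast (ZMod.intCast_zmod_eq_zero_iff_dvd _ _).1 this
  obtain ⟨g, -, h1, h2, -, h3⟩ := lift_dvd γ (dvd_trans (by norm_num) h25)
  rw [h3, FF_smul, vg_triv g ⟨_, h1⟩ (by omega)]
  rfl

lemma fricke_coe (z : ℍ) : (5 * (-1 / (25 * (z : ℂ))) : ℂ) = ((S • w5 z : ℍ) : ℂ) := by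
  rw [modular_S_smul]
  show _ = (-((w5 z : ℍ) : ℂ))⁻¹
  rw [coe_w5]
  have := z.ne_zero
  field_simp
  norm_num

/-- the Fricke involution -/
theorem FF_fricke (z : ℍ) : FF cc (5 * (-1 / (25 * (z : ℂ)))) = - FF cc (5 * (z : ℂ)) := by
  have h0 := fricke_coe z
  have h1 : vg S = fun b => - cc b := by
    have := vg_mul_S 1
    rw [one_mul, vg_one] at this
    rw [this]
    funext x
    unfold fh cc
    have h2 := gauss_char x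
    have h3 : ∀ a : ZMod 5, (ZMod.stdAddChar (2 * a * x) : ℂ) = e5 (2 * a * x) := fun _ => rfl
    simp only [h3]
    rw [h2]
    linear_combination (-(c5 x : ℂ)) * sqrt5_mul'
  rw [h0, FF_smul, h1, coe_w5]
  unfold FF Th
  rw [← intervalIntegral.integral_neg]
  refine intervalIntegral.integral_congr fun v _ => ?_
  simp only [neg_mul, tsum_neg, mul_neg]

end Pool.Agent.Y672.DM
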