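import Pool.Agent.Y672.DM.FDef

/-!
# Exponential decay of the integrals of the theta functions
-/

set_option autoImplicit false

open Complex

namespace Pool.Agent.Y672.DM

open scoped Real
open scoped goldenRatio

lemma log_phi_pos : 0 < Real.log φ := Real.log_pos Real.one_lt_goldenRatio

lemma PP_pos : 0 < PP := by
  unfold PP
  have := log_phi_pos
  positivity

lemma t0_mul_PP : t0 * PP = 2 * π := by
  unfold t0 PP
  have := log_phi_pos.ne'
  field_simp
  norm_num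

lemma t0_pos : 0 < t0 := by
  unfold t0
  have := log_phi_pos
  positivity

lemma int_char : ∫ v in (0 : ℝ)..PP, cexp (I * t0 * v) = 0 := by
  have h0 : (I * t0 : ℂ) ≠ 0 := mul_ne_zero I_ne_zero (by exact_mod_cast t0_pos.ne')
  rw [integral_exp_mul_complex h0]
  have : (I * t0 * PP : ℂ) = 2 * π * I := by
    have h := t0_mul_PP
    have h' : ((t0 : ℂ)) * PP = 2 * π := by exact_mod_cast h
    linear_combination I * h'
  rw [this, Complex.exp_two_pi_mul_I]
  simp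

lemma nm_ne_zero {p : ℤ × ℤ} (hp : p ≠ 0) : nm p ≠ 0 := by
  intro h
  unfold nm at h
  apply hp
  have h5 : (2 * p.1 + p.2) ^ 2 = 5 * p.2 ^ 2 := by linear_combination 4 * h
  by_cases h2 : p.2 = 0
  · have h1 : p.1 = 0 := by
      rw [h2] at h
      simpa using h
    exact Prod.ext h1 h2
  · exfalso
    have hirr : Irrational (√5) := by
      have := (Nat.prime_five).irrational_sqrt
      exact_mod_cast this
    apply hirr
    have h2' : (p.2 : ℝ) ≠ 0 := by exact_mod_cast h2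
    have h6 : (((2 * p.1 + p.2 : ℤ) : ℝ) / (p.2 : ℤ)) ^ 2 = 5 := by
      have h5' : ((2 * p.1 + p.2 : ℤ) : ℝ) ^ 2 = 5 * (p.2 : ℝ) ^ 2 := by exact_mod_cast h5
      rw [div_pow, h5']
      field_simp
    refine ⟨|((2 * p.1 + p.2 : ℤ) : ℚ) / (p.2 : ℤ)|, ?_⟩
    push_cast
    push_cast at h6
    rw [← h6, Real.sqrt_sq_eq_abs]

lemma Q_ge {p : ℤ × ℤ} (hp : p ≠ 0) (v : ℝ) :
    2 ≤ em p ^ 2 * Real.exp v + em' p ^ 2 * Real.exp (-v) := by
  have h1 : (1 : ℝ) ≤ |em p * em' p| := by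
    rw [em_mul]
    have := Int.one_le_abs (nm_ne_zero hp)
    exact_mod_cast this
  have h2 : Real.exp v * Real.exp (-v) = 1 := by rw [← Real.exp_add]; simp
  have h3 : 2 * |em p * em' p| ≤ em p ^ 2 * Real.exp v + em' p ^ 2 * Real.exp (-v) := by
    have ha : Real.exp v = Real.exp (v / 2) ^ 2 := by rw [← Real.exp_nat_mul]; congr 1; push_cast; ring
    have hb : Real.exp (-v) = Real.exp (-v / 2) ^ 2 := by rw [← Real.exp_nat_mul]; congr 1; push_cast; ring
    have hc : Real.exp (v / 2) * Real.exp (-v / 2) = 1 := by rw [← Real.exp_add]; simp [neg_div]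
    rw [ha, hb]
    have h4 : |em p * em' p| = |em p * Real.exp (v / 2)| * |em' p * Real.exp (-v / 2)| := by
      rw [← abs_mul]
      congr 1
      linear_combination (-(em p * em' p)) * hc
    rw [h4]
    have h5 := two_mul_le_add_sq |em p * Real.exp (v / 2)| |em' p * Real.exp (-v / 2)|
    rw [sq_abs, sq_abs, mul_pow, mul_pow] at h5
    linarith
  linarith

lemma ex_zero (z : ℂ) (v : ℝ) : ex z v 0 = 1 := by
  unfold ex nm em em'
  simp

/-- the theta function without its constant term -/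
noncomputable def Tr (f : ZMod 5 → ℂ) (z : ℂ) (v : ℝ) : ℂ :=
  √z.im * ∑' p : ℤ × ℤ, if p = 0 then 0 else f (cls p) * ex z v p

lemma Th_eq (f : ZMod 5 → ℂ) {z : ℂ} (hz : 0 < z.im) (v : ℝ) :
    Th f z v = √z.im * f 0 + Tr f z v := by
  unfold Th Tr
  rw [(summable_f hz v f).tsum_eq_add_tsum_ite 0, mul_add, ex_zero]
  simp [cls]

lemma ex_le {δ : ℝ} (hδ : 0 < δ) {z : ℂ} (hz : δ ≤ z.im) {v : ℝ} (hv : |v| ≤ PP) {p : ℤ × ℤ} (hp : p ≠ 0) :
    ‖ex z v p‖ ≤ Real.exp (-(π / 5 * z.im)) * (Real.exp (-π * p.1 ^ 2 * (δ / 10 * Real.exp (-PP))) *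
      Real.exp (-π * p.2 ^ 2 * (δ / 10 * Real.exp (-PP)))) := by
  rw [norm_ex, ← Real.exp_add, ← Real.exp_add]
  apply Real.exp_le_exp.mpr
  have h1 := Q_ge hp v
  have h2 := sq_form p.1 p.2 v
  have h3 : Real.exp (-PP) ≤ Real.exp (-|v|) := Real.exp_le_exp.mpr (by linarith)
  have h4 : Real.exp (-PP) * ((p.1 : ℝ) ^ 2 + (p.2 : ℝ) ^ 2) ≤
      em p ^ 2 * Real.exp v + em' p ^ 2 * Real.exp (-v) := by
    refine le_trans ?_ h2
    exact mul_le_mul_of_nonneg_right h3 (by positivity)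
  obtain ⟨Q, hQ⟩ : ∃ Q, Q = em p ^ 2 * Real.exp v + em' p ^ 2 * Real.exp (-v) := ⟨_, rfl⟩
  rw [← hQ] at h1 h4 ⊢
  have hy : 0 < z.im := hδ.trans_le hz
  have h5 : π / 10 * z.im * 2 ≤ π / 10 * z.im * Q := mul_le_mul_of_nonneg_left h1 (by positivity)
  have h6 : π / 10 * δ * (Real.exp (-PP) * ((p.1 : ℝ) ^ 2 + (p.2 : ℝ) ^ 2)) ≤ π / 10 * z.im * Q := by
    apply mul_le_mul _ h4 (by positivity) (by positivity)
    exact mul_le_mul_of_nonneg_left hz (by positivity)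
  nlinarith [h5, h6]

lemma sqrt_exp {y : ℝ} (hy : 0 < y) : √y * Real.exp (-(π / 5 * y)) ≤ 4 * Real.exp (-(π / 10) * y) := by
  have h1 : √y ≤ 1 + y := by
    rw [Real.sqrt_le_left (by positivity)]
    nlinarith
  have h2 : π / 10 * y + 1 ≤ Real.exp (π / 10 * y) := Real.add_one_le_exp _
  have h3 : √y ≤ 4 * Real.exp (π / 10 * y) := by
    have := Real.pi_gt_three
    nlinarith
  have h4 : Real.exp (π / 10 * y) * Real.exp (-(π / 5 * y)) = Real.exp (-(π / 10) * y) := by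
    rw [← Real.exp_add]; congr 1; ring
  calc √y * Real.exp (-(π / 5 * y)) ≤ (4 * Real.exp (π / 10 * y)) * Real.exp (-(π / 5 * y)) :=
        mul_le_mul_of_nonneg_right h3 (Real.exp_pos _).le
    _ = _ := by rw [mul_assoc, h4]

/-- the remaining part is small -/
lemma Tr_le (f : ZMod 5 → ℂ) {δ : ℝ} (hδ : 0 < δ) : ∃ C : ℝ, 0 ≤ C ∧ ∀ z : ℂ, δ ≤ z.im → ∀ v : ℝ, |v| ≤ PP →
    ‖Tr f z v‖ ≤ C * Real.exp (-(π / 10) * z.im) := by
  obtain ⟨M, hM0, hM⟩ : ∃ M : ℝ, 0 ≤ M ∧ ∀ a, ‖f a‖ ≤ M := ⟨∑ a, ‖f a‖, by positivity, fun a =>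
    Finset.single_le_sum (f := fun a => ‖f a‖) (fun _ _ => norm_nonneg _) (Finset.mem_univ a)⟩
  have hs := summable_gauss (δ := δ / 10 * Real.exp (-PP)) (by positivity)
  obtain ⟨G, hG⟩ : ∃ G : ℤ × ℤ → ℝ, G = fun p => Real.exp (-π * p.1 ^ 2 * (δ / 10 * Real.exp (-PP))) *
      Real.exp (-π * p.2 ^ 2 * (δ / 10 * Real.exp (-PP))) := ⟨_, rfl⟩
  rw [← hG] at hs
  have hG0 : ∀ p, 0 ≤ G p := fun p => by rw [hG]; positivity
  have hGs : 0 ≤ ∑' p, G p := tsum_nonneg hG0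
  refine ⟨4 * M * ∑' p, G p, by positivity, fun z hz v hv => ?_⟩
  have hy : 0 < z.im := hδ.trans_le hz
  have h1 : ‖∑' p : ℤ × ℤ, if p = 0 then 0 else f (cls p) * ex z v p‖ ≤
      ∑' p, M * Real.exp (-(π / 5 * z.im)) * G p := by
    refine tsum_of_norm_bounded (hs.mul_left _).hasSum fun p => ?_
    split_ifs with hp
    · rw [norm_zero]
      have := hG0 p
      positivity
    · rw [norm_mul, mul_assoc]
      refine mul_le_mul (hM _) ?_ (norm_nonneg _) hM0
      rw [hG]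
      exact ex_le hδ hz hv hp
  unfold Tr
  rw [norm_mul, Complex.norm_real, Real.norm_of_nonneg (Real.sqrt_nonneg _)]
  rw [tsum_mul_left] at h1
  calc √z.im * _ ≤ √z.im * (M * Real.exp (-(π / 5 * z.im)) * ∑' p, G p) :=
        mul_le_mul_of_nonneg_left h1 (Real.sqrt_nonneg _)
    _ = (M * ∑' p, G p) * (√z.im * Real.exp (-(π / 5 * z.im))) := by ring
    _ ≤ (M * ∑' p, G p) * (4 * Real.exp (-(π / 10) * z.im)) :=
        mul_le_mul_of_nonneg_left (sqrt_exp hy) (by positivity)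
    _ = _ := by ring

/-- exponential decay of the theta integrals -/
theorem FF_decay (f : ZMod 5 → ℂ) {δ : ℝ} (hδ : 0 < δ) : ∃ C : ℝ, 0 ≤ C ∧ ∀ z : ℂ, δ ≤ z.im →
    ‖FF f z‖ ≤ C * Real.exp (-(π / 10) * z.im) := by
  obtain ⟨C, hC0, hC⟩ := Tr_le f hδ
  refine ⟨C * PP, mul_nonneg hC0 PP_pos.le, fun z hz => ?_⟩
  have hy : 0 < z.im := hδ.trans_le hz
  have hexp : ∀ v : ℝ, ‖cexp (I * t0 * v)‖ = 1 := fun v => by
    rw [show (I * t0 * v : ℂ) = ((t0 * v : ℝ) : ℂ) * I by push_cast; ring]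
    exact norm_exp_ofReal_mul_I _
  have h1 : ‖∫ v in (0 : ℝ)..PP, Tr f z v * cexp (I * t0 * v)‖ ≤
      C * Real.exp (-(π / 10) * z.im) * |PP - 0| := by
    refine intervalIntegral.norm_integral_le_of_norm_le_const fun v hv => ?_
    rw [norm_mul, hexp, mul_one]
    rw [Set.uIoc_of_le PP_pos.le] at hv
    exact hC z hz v (by rw [abs_of_pos hv.1]; exact hv.2)
  have h2 : ∫ v in (0 : ℝ)..PP, (√z.im * f 0 : ℂ) * cexp (I * t0 * v) = 0 := by
    rw [intervalIntegral.integral_const_mul, int_char, mul_zero]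
  have h3 : ∀ v : ℝ, Th f z v * cexp (I * t0 * v) =
      (√z.im * f 0 : ℂ) * cexp (I * t0 * v) + Tr f z v * cexp (I * t0 * v) := fun v => by
    rw [Th_eq f hy, add_mul]
  have hA : IntervalIntegrable (fun v : ℝ => (√z.im * f 0 : ℂ) * cexp (I * t0 * v)) MeasureTheory.volume 0 PP := by
    apply Continuous.intervalIntegrable
    fun_prop
  have h4 : ‖FF f z‖ ≤ ‖∫ v in (0 : ℝ)..PP, Tr f z v * cexp (I * t0 * v)‖ := by
    unfold FF
    simp only [h3]
    by_cases hB : IntervalIntegrable (fun v : ℝ => Tr f z v * cexp (I * t0 * v)) MeasureTheory.volume 0 PP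
    · rw [intervalIntegral.integral_add hA hB, h2, zero_add]
    · rw [intervalIntegral.integral_undef, norm_zero]
      · exact norm_nonneg _
      · intro h
        apply hB
        have := h.sub hA
        simpa using this
  refine h4.trans (h1.trans (le_of_eq ?_))
  rw [sub_zero, abs_of_pos PP_pos]
  ring

end Pool.Agent.Y672.DM
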