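import Pool.Agent.Y672.DM.HeckeOp
import Pool.Agent.Y672.DM.Count
import Pool.Agent.Y672.DM.Cusp
import Pool.Agent.Y672.DM.Decay
import Pool.Agent.Y807.DMA2
import Pool.Agent.Y807.DMB
import Pool.Agent.Y807.DME1
import Pool.Agent.Y807.DME2
import Pool.Agent.Y672.DM.ConstK
import Pool.Agent.Y807.DMH
import Pool.Agent.Y96.DMC.Main
import Pool.Agent.Y96.DMG.Main
import Pool.Agent.Y708.SplitFive

/-!
# Assembly
-/

set_option autoImplicit false

open UpperHalfPlane MatrixGroups Filter Topology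
open scoped ContDiff Laplacian Real

namespace Pool.Agent.Y672.DM

/-- the coefficients -/
noncomputable def aa (n : ℕ) : ℂ := bb n / 4

/-- the Maass form -/
noncomputable def uu : ℂ → ℂ := U t0 aa

lemma aa_zero : aa 0 = 0 := by simp [aa, Pool.Agent.Y807.DME1.bb_zero]

lemma aa_one : aa 1 = 1 := by rw [aa, Pool.Agent.Y807.DME1.bb_one]; norm_num

lemma aa_bound : ∃ C : ℝ, ∀ n : ℕ, ‖aa n‖ ≤ C * (n : ℝ) ^ 2 := by
  obtain ⟨C, hC⟩ := Pool.Agent.Y807.DME1.bb_bound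
  refine ⟨C / 4, fun n => ?_⟩
  have h := hC n
  rw [aa, norm_div, Complex.norm_ofNat]
  linarith

lemma aa_summable (σ : ℝ) (hσ : 1 < σ) : Summable fun n : ℕ => ‖aa n‖ * (n : ℝ) ^ (-σ) := by
  refine ((Pool.Agent.Y807.DME1.bb_summable σ hσ).mul_left (1 / 4)).congr fun n => ?_
  rw [aa, norm_div, Complex.norm_ofNat]
  ring

lemma aa_five (n : ℕ) (h : 5 ∣ n) : aa n = 0 := by
  by_contra hcon
  have : bb n ≠ 0 := fun h0 => hcon (by rw [aa, h0, zero_div])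
  rcases Pool.Agent.Y807.DME1.bb_mod n this with h1 | h1 <;> omega

lemma uu_eq {z : ℂ} (hz : 0 < z.im) : uu z = (1 / (4 * √5) : ℝ) * FF cc (5 * z) := by
  have h := Pool.Agent.Y807.DMH.FF_eq_U (z := 5 * z) (by simpa using hz)
  rw [show (5 * z / 5 : ℂ) = z by field_simp] at h
  rw [show cc = fun b => (c5 b : ℂ) from rfl, h]
  have h1 : uu z = (1 / 4 : ℂ) * U t0 bb z := by
    unfold uu U aa
    rw [← tsum_mul_left]
    refine tsum_congr fun n => ?_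
    ring
  rw [h1, ← mul_assoc, ← Complex.ofReal_mul]
  have h5 : √5 ≠ 0 := by positivity
  congr 1
  rw [show (1 / (4 * √5) * √5 : ℝ) = 1 / 4 by field_simp]
  norm_num

lemma uu_Gamma0 (γ : SL(2, ℤ)) (hγ : γ ∈ CongruenceSubgroup.Gamma0 25) (z : ℍ) :
    uu ((γ • z : ℍ) : ℂ) = uu z := by
  rw [uu_eq (γ • z).im_pos, uu_eq z.im_pos, FF_Gamma0 γ hγ]

lemma uu_fricke (z : ℍ) : uu (-1 / (25 * (z : ℂ))) = - uu z := by
  have him : 0 < (-1 / (25 * (z : ℂ)) : ℂ).im := by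
    have h1 := (ModularGroup.S • w5 z).im_pos
    rw [← UpperHalfPlane.coe_im, ← fricke_coe] at h1
    have h2 : (5 * (-1 / (25 * (z : ℂ))) : ℂ).im = 5 * (-1 / (25 * (z : ℂ)) : ℂ).im := by
      rw [show (5 : ℂ) = ((5 : ℝ) : ℂ) by norm_num, Complex.im_ofReal_mul]
    rw [h2] at h1
    linarith
  rw [uu_eq him, uu_eq z.im_pos, FF_fricke]
  ring

lemma uu_decay (σ : SL(2, ℤ)) : ∃ C c : ℝ, 0 < c ∧
    ∀ z : ℍ, 1 ≤ z.im → ‖uu ((σ • z : ℍ) : ℂ)‖ ≤ C * Real.exp (-c * z.im) := by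
  by_cases h : (5 : ℤ) ∣ σ 1 0
  · obtain ⟨g, -, -, -, -, hg⟩ := lift_dvd σ h
    obtain ⟨C, hC0, hC⟩ := FF_decay (vg g) (δ := 1) one_pos
    refine ⟨(1 / (4 * √5)) * C, π / 2, by positivity, fun z hz => ?_⟩
    rw [uu_eq (σ • z).im_pos, hg, FF_smul, norm_mul, Complex.norm_real,
      Real.norm_of_nonneg (by positivity), mul_assoc]
    refine mul_le_mul_of_nonneg_left ?_ (by positivity)
    have h1 : (((w5 z : ℍ) : ℂ)).im = 5 * z.im := by rw [coe_w5]; simp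
    have := hC ((w5 z : ℍ) : ℂ) (by rw [h1]; linarith)
    rw [h1] at this
    refine this.trans (le_of_eq ?_)
    congr 2
    ring
  · obtain ⟨g, β, hg⟩ := lift_ndvd σ h
    obtain ⟨C, hC0, hC⟩ := FF_decay (vg g) (δ := 1 / 5) (by norm_num)
    refine ⟨(1 / (4 * √5)) * C, π / 50, by positivity, fun z hz => ?_⟩
    rw [uu_eq (σ • z).im_pos, hg, FF_smul, norm_mul, Complex.norm_real,
      Real.norm_of_nonneg (by positivity), mul_assoc]
    refine mul_le_mul_of_nonneg_left ?_ (by positivity)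
    have h1 : (((wd β z : ℍ) : ℂ)).im = z.im / 5 := by
      rw [coe_wd]
      simp
    have := hC ((wd β z : ℍ) : ℂ) (by rw [h1]; linarith)
    rw [h1] at this
    refine this.trans (le_of_eq ?_)
    congr 2
    ring

/-- the constant terms -/
lemma uu_const (σ : SL(2, ℤ)) (z : ℍ) :
    ∫ x in (0 : ℝ)..(25 : ℕ), uu ((σ • (x +ᵥ z) : ℍ) : ℂ) = 0 := by
  have hz : (z : ℂ) = (z.re : ℂ) + (z.im : ℂ) * Complex.I := by
    rw [← UpperHalfPlane.coe_re, ← UpperHalfPlane.coe_im, Complex.re_add_im]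
  have hy := z.im_pos
  by_cases h : (5 : ℤ) ∣ σ 1 0
  · obtain ⟨g, -, -, -, -, hg⟩ := lift_dvd σ h
    have e : ∀ x : ℝ, uu ((σ • (x +ᵥ z) : ℍ) : ℂ) =
        (1 / (4 * √5) : ℝ) * FF (vg g) (((5 * x + 5 * z.re : ℝ) : ℂ) + ((5 * z.im : ℝ) : ℂ) * Complex.I) := by
      intro x
      rw [uu_eq (UpperHalfPlane.im_pos _), hg, FF_smul, coe_w5, UpperHalfPlane.coe_vadd]
      congr 2
      rw [hz]
      push_cast
      ring
    simp only [e]
    rw [intervalIntegral.integral_const_mul,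
      intervalIntegral.integral_comp_mul_add
        (fun x : ℝ => FF (vg g) ((x : ℂ) + ((5 * z.im : ℝ) : ℂ) * Complex.I)) (by norm_num : (5 : ℝ) ≠ 0)]
    have := FF_const_k (vg g) (5 * z.re) 25 (y := 5 * z.im) (by positivity)
    rw [show ((5 : ℝ) * 0 + 5 * z.re) = 5 * z.re by ring,
      show ((5 : ℝ) * ((25 : ℕ) : ℝ) + 5 * z.re) = 5 * z.re + 5 * ((25 : ℕ) : ℝ) by ring,
      this, smul_zero, mul_zero]
  · obtain ⟨g, β, hg⟩ := lift_ndvd σ h
    have e : ∀ x : ℝ, uu ((σ • (x +ᵥ z) : ℍ) : ℂ) =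
        (1 / (4 * √5) : ℝ) * FF (vg g) (((x / 5 + (z.re + β) / 5 : ℝ) : ℂ) + ((z.im / 5 : ℝ) : ℂ) * Complex.I) := by
      intro x
      rw [uu_eq (UpperHalfPlane.im_pos _), hg, FF_smul, coe_wd, UpperHalfPlane.coe_vadd]
      congr 2
      rw [hz]
      push_cast
      ring
    simp only [e]
    rw [intervalIntegral.integral_const_mul,
      intervalIntegral.integral_comp_div_add
        (fun x : ℝ => FF (vg g) ((x : ℂ) + ((z.im / 5 : ℝ) : ℂ) * Complex.I)) (by norm_num : (5 : ℝ) ≠ 0)]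
    have := FF_const_k (vg g) ((z.re + β) / 5) 1 (y := z.im / 5) (by positivity)
    rw [show ((0 : ℝ) / 5 + (z.re + β) / 5) = (z.re + β) / 5 by ring,
      show (((25 : ℕ) : ℝ) / 5 + (z.re + β) / 5) = (z.re + β) / 5 + 5 * ((1 : ℕ) : ℝ) by push_cast; ring,
      this, smul_zero, mul_zero]

lemma aa_hecke (p n : ℕ) (hp : p.Prime) (h5 : p ≠ 5) (hn : 0 < n) :
    aa p * aa n = aa (p * n) + if p ∣ n then aa (n / p) else 0 := by
  have h := Pool.Agent.Y807.DME2.bb_hecke p hp h5 n hn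
  unfold aa
  split_ifs at h ⊢ <;> linear_combination (1 / 16 : ℂ) * h

lemma uu_form : IsHeckeMaassCuspForm 25 t0 aa uu := by
  obtain ⟨C, hC⟩ := aa_bound
  refine ⟨Pool.Agent.Y807.DMA.U_contDiffOn' t0 aa C aa_zero hC, fun z hz => ?_, uu_Gamma0, uu_decay,
    uu_const, fun z hz => ?_, aa_zero, aa_one, fun p hp hpN z hz => ?_⟩
  · have := Pool.Agent.Y807.DMA.U_laplace t0 aa C aa_zero hC z hz
    unfold uu
    linear_combination -this
  · have hG := Pool.Agent.Y807.DMA.gr_of aa_zero hC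
    have h1 := (Pool.Agent.Y807.DMA.term_summable t0 hG 0 0 hz).mul_left ((√z.im : ℝ) : ℂ)
    have h2 : Summable (fun n : ℕ => aa n *
        ((√z.im * KB t0 (2 * Real.pi * n * z.im) * Real.cos (2 * Real.pi * n * z.re) : ℝ) : ℂ)) := by
      refine h1.congr fun n => ?_
      unfold Pool.Agent.Y807.DMA.T
      rw [Pool.Agent.Y807.DMA.G_zero, add_zero]
      push_cast
      ring
    exact h2.hasSum
  · have h5 : p ≠ 5 := by
      rintro rfl
      exact hpN (by norm_num)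
    exact heckeOp_U t0 aa C aa_zero hC hp (fun n hn => aa_hecke p n hp h5 hn) hz

lemma aa_vanish_coprime {m : ℕ} [NeZero m] (hm : Nat.Coprime m 5) (χ : DirichletCharacter ℂ m)
    (hχ : χ.IsPrimitive) (hq : χ ^ 2 = 1) :
    ∃ L : ℂ → ℂ, Differentiable ℂ L ∧
      (∀ s : ℂ, 1 < s.re → HasSum (fun n : ℕ => aa n * χ n * (n : ℂ) ^ (-s)) (L s)) ∧
      L (1 / 2) = 0 :=
  Pool.Agent.Y96.DMC.twist_vanish_of_mellin t0 (fun hs => Pool.Agent.Y807.DMB.KB_mellin t0 hs) aa aa_zero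
    aa_summable uu_Gamma0 uu_fricke hm χ hχ hq

lemma aa_vanish {m : ℕ} [NeZero m] (χ : DirichletCharacter ℂ m) (hχ : χ.IsPrimitive) (hq : χ ^ 2 = 1) :
    ∃ L : ℂ → ℂ, Differentiable ℂ L ∧
      (∀ s : ℂ, 1 < s.re → HasSum (fun n : ℕ => aa n * χ n * (n : ℂ) ^ (-s)) (L s)) ∧
      L (1 / 2) = 0 := by
  by_cases h5 : 5 ∣ m
  · obtain ⟨m', hm', χ', -, hco, hp', hq', heq⟩ := Pool.Agent.Y708.SplitFive.split_five χ hχ hq h5
    obtain ⟨L, h1, h2, h3⟩ := aa_vanish_coprime hco χ' hp' hq'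
    refine ⟨L, h1, fun s hs => ?_, h3⟩
    have e : (fun n : ℕ => aa n * χ n * (n : ℂ) ^ (-s)) = fun n : ℕ => aa n * χ' n * (n : ℂ) ^ (-s) := by
      funext n
      by_cases h0 : aa n = 0
      · rw [h0]; simp
      · have hb : bb n ≠ 0 := fun h => h0 (by rw [aa, h, zero_div])
        rw [heq n (Pool.Agent.Y807.DME1.bb_mod n hb)]
    rw [e]
    exact h2 s hs
  · exact aa_vanish_coprime ((Nat.Prime.coprime_iff_not_dvd (by norm_num)).2 h5).symm χ hχ hq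

lemma cnt_zero (x : ℝ) : cntNonzero aa x = 0 := by
  have : {c ∈ quadChars x | CentralNonzero aa c} = ∅ := by
    ext ⟨m, χ⟩
    simp only [Set.mem_ofPred_eq, Set.mem_empty_iff_false, iff_false, not_and]
    rintro ⟨h1, h2, h3, h4, h5⟩
    have : NeZero m := ⟨h1.ne'⟩
    exact not_centralNonzero aa ⟨m, χ⟩ (aa_vanish χ h3 h4)
  rw [cntNonzero, this, Set.ncard_empty]

lemma aa_twist {m : ℕ} [NeZero m] (χ : DirichletCharacter ℂ m) (hχ : χ.IsPrimitive) (hq : χ ^ 2 = 1) :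
    ∃ L : ℂ → ℂ, Differentiable ℂ L ∧
      (∀ s : ℂ, 1 < s.re → HasSum (fun n : ℕ => aa n * χ n * (n : ℂ) ^ (-s)) (L s)) ∧
      (∀ s : ℂ, 1 < s.re → HasProd (fun p : Nat.Primes => (1 - aa p * χ p * (p : ℂ) ^ (-s) +
        (if (p : ℕ) = 5 then 0 else χ p ^ 2 * (p : ℂ) ^ (-2 * s)))⁻¹) (L s)) ∧
      L (1 / 2) = 0 := by
  obtain ⟨L, h1, h2, h3⟩ := aa_vanish χ hχ hq
  refine ⟨L, h1, h2, fun s hs => ?_, h3⟩
  have h4 := (Pool.Agent.Y96.DMG.euler_of_hecke aa aa_one aa_zero aa_five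
    (fun p n hp h5 hn => aa_hecke p n hp h5 hn) aa_summable χ s hs).2
  rwa [(h2 s hs).tsum_eq] at h4

theorem main_thm :
    ∃ (t : ℝ) (a : ℕ → ℂ) (u : ℂ → ℂ), 0 < t ∧ IsHeckeMaassCuspForm 25 t a u ∧
      (∀ z : ℍ, u (-1 / (25 * (z : ℂ))) = - u z) ∧
      (∀ n : ℕ, 5 ∣ n → a n = 0) ∧
      (∀ (m : ℕ) [NeZero m] (χ : DirichletCharacter ℂ m), χ.IsPrimitive → χ ^ 2 = 1 →
        ∃ L : ℂ → ℂ, Differentiable ℂ L ∧
          (∀ s : ℂ, 1 < s.re → HasSum (fun n : ℕ => a n * χ n * (n : ℂ) ^ (-s)) (L s)) ∧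
          (∀ s : ℂ, 1 < s.re → HasProd (fun p : Nat.Primes => (1 - a p * χ p * (p : ℂ) ^ (-s) +
            (if (p : ℕ) = 5 then 0 else χ p ^ 2 * (p : ℂ) ^ (-2 * s)))⁻¹) (L s)) ∧
          L (1 / 2) = 0) ∧
      (∀ x : ℝ, cntNonzero a x = 0) ∧
      Tendsto cntAll atTop atTop ∧
      ¬ Tendsto (fun x : ℝ => (cntNonzero a x : ℝ) / (cntAll x : ℝ)) atTop (𝓝 (1 / 2)) := by
  refine ⟨t0, aa, uu, t0_pos, uu_form, uu_fricke, aa_five, fun m _ χ hχ hq => aa_twist χ hχ hq, cnt_zero,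
    cntAll_tendsto, ?_⟩
  intro h
  have h1 : (fun x : ℝ => (cntNonzero aa x : ℝ) / (cntAll x : ℝ)) = fun _ => 0 := by
    funext x
    rw [cnt_zero x]
    simp
  rw [h1] at h
  have := tendsto_nhds_unique h tendsto_const_nhds
  norm_num at this

end Pool.Agent.Y672.DM
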