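import Mathlib

/-!
# The dihedral Maass form of `ℚ(√5)`: common definitions
-/

set_option autoImplicit false

open Real MeasureTheory UpperHalfPlane

namespace Pool.Agent.Y672.DM

/-- `∫ exp(-x cosh v) cos(t v) dv` over the real line, that is `2 K_{it}(x)`. -/
noncomputable def KB (t x : ℝ) : ℝ := ∫ v : ℝ, exp (-(x * cosh v)) * cos (t * v)

/-- The even Maass form `∑ a_n √y · 2 K_{it}(2π n y) cos(2π n x)`, `z = x + i y`. -/
noncomputable def U (t : ℝ) (a : ℕ → ℂ) (z : ℂ) : ℂ :=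
  ∑' n : ℕ, a n * ((√z.im * KB t (2 * π * n * z.im) * cos (2 * π * n * z.re) : ℝ) : ℂ)

end Pool.Agent.Y672.DM
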