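import Pool.Agent.Y672.DM.Arith
import Pool.Agent.Y672.DM.Defs

/-!
# The cusp forms obtained by integrating the theta functions along the closed geodesic
-/

set_option autoImplicit false

open Complex

namespace Pool.Agent.Y672.DM

/-- the cusp forms obtained from the theta functions -/
noncomputable def FF (f : ZMod 5 → ℂ) (z : ℂ) : ℂ :=
  ∫ v in (0 : ℝ)..PP, Th f z v * cexp (I * t0 * v)

end Pool.Agent.Y672.DM
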