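import Pool.Agent.Y672.DM.Defs

/-!
# Hecke–Maass cusp forms and their quadratic twists: the definitions used in the statement
-/

set_option autoImplicit false

open UpperHalfPlane MatrixGroups
open scoped ContDiff Laplacian

namespace Pool.Agent.Y672.DM

/-- the Hecke operator `T_p` in weight zero, unitary normalisation -/
noncomputable def heckeOp (p : ℕ) (u : ℂ → ℂ) (z : ℂ) : ℂ :=
  (1 / √(p : ℝ) : ℝ) * (u (p * z) + ∑ b ∈ Finset.range p, u ((z + b) / p))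

/-- `u` is an even Hecke–Maass cusp form of weight `0` and trivial character on `Γ₀(N)`, with Laplace
eigenvalue `1/4 + t²` and normalised Fourier coefficients (= Hecke eigenvalues) `a(n)`. -/
structure IsHeckeMaassCuspForm (N : ℕ) (t : ℝ) (a : ℕ → ℂ) (u : ℂ → ℂ) : Prop where
  /-- `u` is smooth on the upper half-plane -/
  smooth : ContDiffOn ℝ ∞ u {z : ℂ | 0 < z.im}
  /-- `-y² Δ u = (1/4 + t²) u` -/
  laplace : ∀ z : ℂ, 0 < z.im → -(z.im : ℂ) ^ 2 * (Δ u) z = (1 / 4 + (t : ℂ) ^ 2) * u z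
  /-- `u(γ z) = u(z)` for `γ ∈ Γ₀(N)` -/
  invariant : ∀ γ ∈ CongruenceSubgroup.Gamma0 N, ∀ z : ℍ, u ((γ • z : ℍ) : ℂ) = u z
  /-- `u` decays exponentially at every cusp -/
  decay : ∀ σ : SL(2, ℤ), ∃ C c : ℝ, 0 < c ∧
    ∀ z : ℍ, 1 ≤ z.im → ‖u ((σ • z : ℍ) : ℂ)‖ ≤ C * Real.exp (-c * z.im)
  /-- the constant term of `u` at every cusp is zero -/
  constant : ∀ (σ : SL(2, ℤ)) (z : ℍ), ∫ x in (0 : ℝ)..N, u ((σ • (x +ᵥ z) : ℍ) : ℂ) = 0
  /-- `u(x + iy) = ∑ a(n) √y · 2 K_{it}(2π n y) cos(2π n x)` -/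
  expansion : ∀ z : ℂ, 0 < z.im → HasSum (fun n : ℕ => a n *
    ((√z.im * KB t (2 * Real.pi * n * z.im) * Real.cos (2 * Real.pi * n * z.re) : ℝ) : ℂ)) (u z)
  /-- normalisation -/
  a_zero : a 0 = 0
  /-- normalisation -/
  a_one : a 1 = 1
  /-- `T_p u = a(p) u` for all primes `p` not dividing `N` -/
  hecke : ∀ p : ℕ, p.Prime → ¬ p ∣ N → ∀ z : ℂ, 0 < z.im → heckeOp p u z = a p * u z

/-- The quadratic fields `E` with `|Δ_E| < x`, i.e. the primitive Dirichlet characters of order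
exactly `2` and conductor less than `x`. -/
def quadChars (x : ℝ) : Set (Σ m : ℕ, DirichletCharacter ℂ m) :=
  {c | 0 < c.1 ∧ (c.1 : ℝ) < x ∧ c.2.IsPrimitive ∧ c.2 ^ 2 = 1 ∧ c.2 ≠ 1}

/-- The Dirichlet series `∑ a(n) χ(n) n^{-s}` (`Re s > 1`) has an entire continuation whose value
at the centre `s = 1/2` is not zero. -/
def CentralNonzero (a : ℕ → ℂ) (c : Σ m : ℕ, DirichletCharacter ℂ m) : Prop :=
  ∃ L : ℂ → ℂ, Differentiable ℂ L ∧
    (∀ s : ℂ, 1 < s.re → HasSum (fun n : ℕ => a n * c.2 n * (n : ℂ) ^ (-s)) (L s)) ∧ L (1 / 2) ≠ 0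

/-- `N(x)` -/
noncomputable def cntAll (x : ℝ) : ℕ := (quadChars x).ncard

/-- `N_{π'}(x)` -/
noncomputable def cntNonzero (a : ℕ → ℂ) (x : ℝ) : ℕ := {c ∈ quadChars x | CentralNonzero a c}.ncard

end Pool.Agent.Y672.DM
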