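import Pool.Agent.Y807.DMA2
import Pool.Agent.Y672.DM.Stm

/-!
# The Hecke operators on the Fourier series
-/

set_option autoImplicit false

open Real

namespace Pool.Agent.Y672.DM

/-- one term of the expansion -/
noncomputable def wt (t : ℝ) (n : ℕ) (z : ℂ) : ℂ :=
  ((√z.im * KB t (2 * π * n * z.im) * cos (2 * π * n * z.re) : ℝ) : ℂ)

lemma wt_mul (t : ℝ) {p : ℕ} (hp : 0 < p) (n : ℕ) (z : ℂ) :
    wt t n (p * z) = (√(p : ℝ) : ℝ) * wt t (p * n) z := by
  unfold wt
  have h1 : ((p : ℂ) * z).im = p * z.im := by simp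
  have h2 : ((p : ℂ) * z).re = p * z.re := by simp
  rw [h1, h2, Real.sqrt_mul (by positivity)]
  push_cast
  rw [show (2 * π * n * (p * z.im) : ℝ) = 2 * π * (p * n) * z.im by ring]
  rw [show (2 * π * n * (p * z.re) : ℂ) = 2 * π * (p * n) * z.re by ring]
  ring

lemma sum_cos {p : ℕ} (hp : p.Prime) {n : ℕ} (hn : ¬ p ∣ n) (x : ℝ) :
    ∑ b ∈ Finset.range p, cos (2 * π * n * ((x + b) / p)) = 0 := by
  have hp0 : (p : ℂ) ≠ 0 := by exact_mod_cast hp.ne_zero
  have h1 : IsPrimitiveRoot (Complex.exp (2 * π * Complex.I / p)) p :=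
    Complex.isPrimitiveRoot_exp p hp.ne_zero
  have h2 : IsPrimitiveRoot (Complex.exp (2 * π * Complex.I / p) ^ n) p :=
    h1.pow_of_coprime n ((Nat.Prime.coprime_iff_not_dvd hp).2 hn).symm
  have h3 := h2.geom_sum_eq_zero hp.one_lt
  have h4 : ∀ b : ℕ, cos (2 * π * n * ((x + b) / p)) =
      (Complex.exp (2 * π * n * (x / p) * Complex.I) *
        (Complex.exp (2 * π * Complex.I / p) ^ n) ^ b).re := by
    intro b
    rw [← pow_mul, ← Complex.exp_nat_mul, ← Complex.exp_add]
    rw [show (2 * π * n * (x / p) * Complex.I + ((n * b : ℕ) : ℂ) * (2 * π * Complex.I / p) : ℂ) =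
      ((2 * π * n * ((x + b) / p) : ℝ) : ℂ) * Complex.I by push_cast; field_simp]
    rw [Complex.exp_ofReal_mul_I_re]
  simp only [h4]
  rw [← Complex.re_sum, ← Finset.mul_sum, h3]
  simp

lemma wt_sum (t : ℝ) {p : ℕ} (hp : p.Prime) (n : ℕ) (z : ℂ) :
    ∑ b ∈ Finset.range p, wt t n ((z + b) / p) =
      if p ∣ n then (√(p : ℝ) : ℝ) * wt t (n / p) z else 0 := by
  have hp0 : (p : ℝ) ≠ 0 := by exact_mod_cast hp.ne_zero
  have him : ∀ b : ℕ, ((z + b) / p).im = z.im / p := by
    intro b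
    rw [show ((z + b) / p : ℂ) = ((1 / p : ℝ) : ℂ) * (z + b) by push_cast; ring, Complex.im_ofReal_mul]
    simp
    ring
  have hre : ∀ b : ℕ, ((z + b) / p).re = (z.re + b) / p := by
    intro b
    rw [show ((z + b) / p : ℂ) = ((1 / p : ℝ) : ℂ) * (z + b) by push_cast; ring, Complex.re_ofReal_mul]
    simp
    ring
  unfold wt
  simp only [him, hre]
  rw [← Complex.ofReal_sum, ← Finset.mul_sum]
  split_ifs with h
  · obtain ⟨m, rfl⟩ := h
    rw [Nat.mul_div_cancel_left m hp.pos]
    have h1 : ∀ b : ℕ, cos (2 * π * ((p * m : ℕ) : ℝ) * ((z.re + b) / p)) = cos (2 * π * m * z.re) := by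
      intro b
      rw [show (2 * π * ((p * m : ℕ) : ℝ) * ((z.re + b) / p) : ℝ) =
        2 * π * m * z.re + ((m * b : ℕ) : ℝ) * (2 * π) by push_cast; field_simp]
      exact Real.cos_add_nat_mul_two_pi _ _
    simp only [h1]
    rw [Finset.sum_const, Finset.card_range, nsmul_eq_mul, ← Complex.ofReal_mul]
    congr 1
    rw [Real.sqrt_div' _ (by positivity)]
    rw [show (2 * π * ((p * m : ℕ) : ℝ) * (z.im / p) : ℝ) = 2 * π * m * z.im by push_cast; field_simp]
    have h2 : √(p : ℝ) * √(p : ℝ) = p := Real.mul_self_sqrt (by positivity)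
    have h3 : √(p : ℝ) ≠ 0 := by
      rw [Real.sqrt_ne_zero']
      exact_mod_cast hp.pos
    field_simp
    linear_combination (-√z.im * KB t (2 * π * m * z.im) * cos (2 * π * m * z.re)) * h2
  · rw [sum_cos hp h]
    simp

/-- the Fourier series is a Hecke eigenfunction -/
theorem heckeOp_U (t : ℝ) (a : ℕ → ℂ) (C : ℝ) (h0 : a 0 = 0) (ha : ∀ n, ‖a n‖ ≤ C * n ^ 2)
    {p : ℕ} (hp : p.Prime)
    (hh : ∀ n, 0 < n → a p * a n = a (p * n) + if p ∣ n then a (n / p) else 0) {z : ℂ} (hz : 0 < z.im) :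
    heckeOp p (U t a) z = a p * U t a z := by
  have hp0 : (0 : ℝ) < p := by exact_mod_cast hp.pos
  have hs : ∀ (c : ℕ → ℂ), Pool.Agent.Y807.DMA.Gr c → ∀ w : ℂ, 0 < w.im → Summable fun n => c n * wt t n w := by
    intro c hc w hw
    have := (Pool.Agent.Y807.DMA.term_summable t hc 0 0 hw).mul_left ((√w.im : ℝ) : ℂ)
    refine this.congr fun n => ?_
    unfold wt Pool.Agent.Y807.DMA.T
    rw [Pool.Agent.Y807.DMA.G_zero, add_zero]
    push_cast
    ring
  have hGr := Pool.Agent.Y807.DMA.gr_of h0 ha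
  have hU : ∀ w, U t a w = ∑' n, a n * wt t n w := fun w => rfl
  -- the first part
  have e1 : U t a (p * z) = (√(p : ℝ) : ℝ) * ∑' m, (if p ∣ m then a (m / p) else 0) * wt t m z := by
    rw [hU, ← tsum_mul_left]
    have hinj : Function.Injective (fun n : ℕ => p * n) := fun x y h => Nat.eq_of_mul_eq_mul_left hp.pos h
    rw [← hinj.tsum_eq (f := fun m => ((√(p : ℝ) : ℝ) : ℂ) * ((if p ∣ m then a (m / p) else 0) * wt t m z))]
    · refine tsum_congr fun n => ?_
      rw [wt_mul t hp.pos, if_pos (dvd_mul_right p n), Nat.mul_div_cancel_left n hp.pos]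
      ring
    · intro m hm
      rw [Function.mem_support] at hm
      by_contra hcon
      apply hm
      rw [if_neg]
      · simp
      · rintro ⟨k, rfl⟩
        exact hcon ⟨k, rfl⟩
  -- the second part
  have e2 : ∑ b ∈ Finset.range p, U t a ((z + b) / p) = (√(p : ℝ) : ℝ) * ∑' m, a (p * m) * wt t m z := by
    simp only [hU]
    have him : ∀ b : ℕ, 0 < ((z + b) / p).im := by
      intro b
      rw [show ((z + b) / p : ℂ) = ((1 / p : ℝ) : ℂ) * (z + b) by push_cast; ring, Complex.im_ofReal_mul]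
      simp
      positivity
    rw [← Summable.tsum_finsetSum (fun b _ => hs a hGr _ (him b))]
    simp only [← Finset.mul_sum, wt_sum t hp]
    rw [← tsum_mul_left]
    have hinj : Function.Injective (fun n : ℕ => p * n) := fun x y h => Nat.eq_of_mul_eq_mul_left hp.pos h
    rw [← hinj.tsum_eq (f := fun n => a n * if p ∣ n then ((√(p : ℝ) : ℝ) : ℂ) * wt t (n / p) z else 0)]
    · refine tsum_congr fun n => ?_
      rw [if_pos (dvd_mul_right p n), Nat.mul_div_cancel_left n hp.pos]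
      ring
    · intro m hm
      rw [Function.mem_support] at hm
      by_contra hcon
      apply hm
      rw [if_neg]
      · simp
      · rintro ⟨k, rfl⟩
        exact hcon ⟨k, rfl⟩
  have g1 : Pool.Agent.Y807.DMA.Gr (fun m => if p ∣ m then a (m / p) else 0) := by
    refine ⟨by simp [h0], |C|, 2, abs_nonneg _, fun n => ?_⟩
    show ‖if p ∣ n then a (n / p) else 0‖ ≤ _
    split_ifs with h
    · obtain ⟨m, rfl⟩ := h
      rw [Nat.mul_div_cancel_left m hp.pos]
      refine (ha m).trans ?_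
      have h1 : C ≤ |C| := le_abs_self C
      have h2 : (m : ℝ) ≤ ((p * m : ℕ) : ℝ) := by
        exact_mod_cast Nat.le_mul_of_pos_left m hp.pos
      gcongr
    · simp
      positivity
  have g2 : Pool.Agent.Y807.DMA.Gr (fun m => a (p * m)) := by
    refine ⟨by simp [h0], |C| * p ^ 2, 2, by positivity, fun n => ?_⟩
    refine (ha _).trans ?_
    have h1 : C ≤ |C| := le_abs_self C
    push_cast
    rw [mul_pow, mul_assoc]
    gcongr
  unfold heckeOp
  rw [e1, e2, ← mul_add, ← (hs _ g1 z hz).tsum_add (hs _ g2 z hz), ← mul_assoc, ← Complex.ofReal_mul,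
    one_div_mul_cancel (Real.sqrt_pos.2 hp0).ne', Complex.ofReal_one, one_mul, hU, ← tsum_mul_left]
  refine tsum_congr fun m => ?_
  rcases Nat.eq_zero_or_pos m with rfl | hm
  · simp [h0]
  · have := hh m hm
    rw [← add_mul, ← mul_assoc, this]
    ring

end Pool.Agent.Y672.DM
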