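import Mathlib

/-!
# Poisson summation for binary complex Gaussians
-/

set_option autoImplicit false

open Complex

namespace Pool.Agent.Y672.DM

open scoped Real

theorem pois1 {M : ℂ} (hM : 0 < M.re) (c : ℂ) (s : ℝ) :
    ∑' p : ℤ, cexp (-π * (M * ((p : ℂ) + s) ^ 2 + 2 * c * ((p : ℂ) + s))) =
      1 / M ^ (1 / 2 : ℂ) * ∑' k : ℤ, cexp (2 * π * I * k * s + π * (c + I * k) ^ 2 / M) := by
  have hM0 : M ≠ 0 := by
    rintro rfl
    simp at hM
  have h := Complex.tsum_exp_neg_quadratic hM (-(M * s + c))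
  have e1 : ∀ p : ℤ, cexp (-π * (M * ((p : ℂ) + s) ^ 2 + 2 * c * ((p : ℂ) + s))) =
      cexp (-π * (M * s ^ 2 + 2 * c * s)) * cexp (-π * M * p ^ 2 + 2 * π * (-(M * s + c)) * p) := by
    intro p
    rw [← Complex.exp_add]
    congr 1
    ring
  have e2 : ∀ k : ℤ, cexp (2 * π * I * k * s + π * (c + I * k) ^ 2 / M) =
      cexp (-π * (M * s ^ 2 + 2 * c * s)) * cexp (-π / M * (k + I * (-(M * s + c))) ^ 2) := by
    intro k
    rw [← Complex.exp_add]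
    congr 1
    field_simp
    ring_nf
    simp only [I_sq]
    ring
  rw [tsum_congr e1, tsum_mul_left, h, tsum_congr e2, tsum_mul_left]
  ring

/-- positive definiteness of the real part of a complex binary form -/
def PD (A B C : ℂ) : Prop :=
  ∃ δ : ℝ, 0 < δ ∧ ∀ x y : ℝ, δ * (x ^ 2 + y ^ 2) ≤
    (A * (x : ℂ) ^ 2 + 2 * B * x * y + C * (y : ℂ) ^ 2).re

lemma PD.re_pos {A B C : ℂ} (h : PD A B C) : 0 < A.re := by
  obtain ⟨δ, hδ, h⟩ := h
  have := h 1 0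
  simp at this
  linarith

lemma form_re (A B C : ℂ) (x y : ℝ) :
    (A * (x : ℂ) ^ 2 + 2 * B * x * y + C * (y : ℂ) ^ 2).re =
      A.re * x ^ 2 + 2 * B.re * x * y + C.re * y ^ 2 := by
  have e : A * (x : ℂ) ^ 2 + 2 * B * x * y + C * (y : ℂ) ^ 2 =
      A * ((x ^ 2 : ℝ) : ℂ) + B * ((2 * x * y : ℝ) : ℂ) + C * ((y ^ 2 : ℝ) : ℂ) := by
    push_cast; ring
  rw [e, add_re, add_re, re_mul_ofReal, re_mul_ofReal, re_mul_ofReal]
  ring

lemma PD.det_pos {A B C : ℂ} (h : PD A B C) : 0 < A.re * C.re - B.re ^ 2 := by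
  have hA := h.re_pos
  obtain ⟨δ, hδ, h⟩ := h
  have := h (-B.re) A.re
  rw [form_re] at this
  have h1 : 0 < δ * ((-B.re) ^ 2 + A.re ^ 2) := by positivity
  have h2 : A.re * (-B.re) ^ 2 + 2 * B.re * (-B.re) * A.re + C.re * A.re ^ 2 =
      A.re * (A.re * C.re - B.re ^ 2) := by ring
  rw [h2] at this
  exact (pos_iff_pos_of_mul_pos (lt_of_lt_of_le h1 this)).mp hA

/-- positive definiteness is preserved by the partial Fourier transform -/
lemma PD.pt {A B C : ℂ} (h : PD A B C) : PD (C - B ^ 2 / A) (-I * B / A) (1 / A) := by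
  have hA := h.re_pos
  have hd := h.det_pos
  have hA0 : A ≠ 0 := by
    rintro rfl
    simp at hA
  have hN : 0 < normSq A := normSq_pos.mpr hA0
  set α : ℝ := (A.re * C.re - B.re ^ 2) / A.re with hα
  set β : ℝ := A.re / normSq A with hβ
  set γ : ℝ := B.im - A.im / A.re * B.re with hγ
  have hα0 : 0 < α := by positivity
  have hβ0 : 0 < β := by positivity
  have key : ∀ x y : ℝ, ((C - B ^ 2 / A) * (x : ℂ) ^ 2 + 2 * (-I * B / A) * x * y +
      (1 / A) * (y : ℂ) ^ 2).re = α * x ^ 2 + β * (y + γ * x) ^ 2 := by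
    intro x y
    have e : (C - B ^ 2 / A) * (x : ℂ) ^ 2 + 2 * (-I * B / A) * x * y +
      (1 / A) * (y : ℂ) ^ 2 = C * ((x ^ 2 : ℝ) : ℂ) + ((y : ℂ) - I * B * x) ^ 2 / A := by
      push_cast
      field_simp
      linear_combination (-(B ^ 2) * (x : ℂ) ^ 2) * I_sq
    have e3 : ((y : ℂ) - I * B * x) ^ 2 = ⟨(y + B.im * x) ^ 2 - (B.re * x) ^ 2,
        -(2 * (y + B.im * x) * (B.re * x))⟩ := by
      have : ((y : ℂ) - I * B * x) = ⟨y + B.im * x, -(B.re * x)⟩ := by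
        apply Complex.ext <;> simp
      rw [this, pow_two]
      apply Complex.ext
      · simp only [mul_re]; ring
      · simp only [mul_im]; ring
    rw [e, add_re, re_mul_ofReal, e3, div_re]
    simp only []
    have hNe : normSq A = A.re ^ 2 + A.im ^ 2 := by rw [normSq_apply]; ring
    rw [hα, hβ, hγ, hNe]
    have hN' : A.re ^ 2 + A.im ^ 2 ≠ 0 := by rw [← hNe]; exact hN.ne'
    have hAr : A.re ≠ 0 := hA.ne'
    field_simp
    ring
  refine ⟨1 / ((1 + 2 * γ ^ 2) / α + 2 / β), by positivity, fun x y => ?_⟩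
  rw [key]
  rw [one_div, inv_mul_le_iff₀ (by positivity)]
  have h1 : 0 ≤ α * x ^ 2 := by positivity
  have h2 : 0 ≤ β * (y + γ * x) ^ 2 := by positivity
  have h3 : (1 + 2 * γ ^ 2) * x ^ 2 ≤
      (1 + 2 * γ ^ 2) / α * (α * x ^ 2 + β * (y + γ * x) ^ 2) := by
    have : (1 + 2 * γ ^ 2) / α * (α * x ^ 2 + β * (y + γ * x) ^ 2) =
      (1 + 2 * γ ^ 2) * x ^ 2 + (1 + 2 * γ ^ 2) / α * (β * (y + γ * x) ^ 2) := by
      field_simp
    rw [this]
    have : 0 ≤ (1 + 2 * γ ^ 2) / α * (β * (y + γ * x) ^ 2) := by positivity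
    linarith
  have h4 : 2 * (y + γ * x) ^ 2 ≤ 2 / β * (α * x ^ 2 + β * (y + γ * x) ^ 2) := by
    have : 2 / β * (α * x ^ 2 + β * (y + γ * x) ^ 2) =
      2 / β * (α * x ^ 2) + 2 * (y + γ * x) ^ 2 := by
      field_simp
    rw [this]
    have : 0 ≤ 2 / β * (α * x ^ 2) := by positivity
    linarith
  have h5 : x ^ 2 + y ^ 2 ≤ (1 + 2 * γ ^ 2) * x ^ 2 + 2 * (y + γ * x) ^ 2 := by
    nlinarith [sq_nonneg (y + 2 * γ * x), sq_nonneg x]
  nlinarith [h3, h4, h5]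

lemma PD.swap {A B C : ℂ} (h : PD A B C) : PD C B A := by
  obtain ⟨δ, hδ, h⟩ := h
  refine ⟨δ, hδ, fun x y => ?_⟩
  have := h y x
  rw [form_re] at this ⊢
  nlinarith [this]

lemma PD.summable {A B C : ℂ} (h : PD A B C) (s r : ℝ) :
    Summable fun p : ℤ × ℤ => ‖cexp (-π * (A * ((p.1 : ℂ) + s) ^ 2 +
      2 * B * ((p.1 : ℂ) + s) * ((p.2 : ℂ) + r) + C * ((p.2 : ℂ) + r) ^ 2))‖ := by
  obtain ⟨δ, hδ, h⟩ := h
  have h1 : Summable fun n : ℤ => Real.exp (-π * (n + s) ^ 2 * δ) :=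
    (HurwitzZeta.hasSum_int_evenKernel s hδ).summable
  have h2 : Summable fun n : ℤ => Real.exp (-π * (n + r) ^ 2 * δ) :=
    (HurwitzZeta.hasSum_int_evenKernel r hδ).summable
  refine Summable.of_nonneg_of_le (fun _ => norm_nonneg _) (fun p => ?_)
    (h1.mul_of_nonneg h2 (fun _ => (Real.exp_pos _).le) (fun _ => (Real.exp_pos _).le))
  rw [norm_exp, ← Real.exp_add]
  apply Real.exp_le_exp.mpr
  have h3 := h ((p.1 : ℝ) + s) ((p.2 : ℝ) + r)
  push_cast at h3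
  have e : (-(π : ℂ) * (A * ((p.1 : ℂ) + s) ^ 2 +
      2 * B * ((p.1 : ℂ) + s) * ((p.2 : ℂ) + r) + C * ((p.2 : ℂ) + r) ^ 2)).re =
      -π * (A * ((p.1 : ℂ) + s) ^ 2 +
      2 * B * ((p.1 : ℂ) + s) * ((p.2 : ℂ) + r) + C * ((p.2 : ℂ) + r) ^ 2).re := by
    rw [← ofReal_neg, re_ofReal_mul]
  rw [e]
  nlinarith [Real.pi_pos]

set_option maxHeartbeats 4000000 in
/-- **Poisson summation** for complex binary Gaussians -/
theorem pois2 {A B C : ℂ} (h : PD A B C) (s r : ℝ) :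
    ∑' p : ℤ × ℤ, cexp (-π * (A * ((p.1 : ℂ) + s) ^ 2 +
      2 * B * ((p.1 : ℂ) + s) * ((p.2 : ℂ) + r) + C * ((p.2 : ℂ) + r) ^ 2)) =
    1 / A ^ (1 / 2 : ℂ) * (1 / (C - B ^ 2 / A) ^ (1 / 2 : ℂ)) *
      ∑' k : ℤ × ℤ, cexp (2 * π * I * (k.1 * s + k.2 * r)) *
        cexp (-π * (k.1 ^ 2 / A + (k.2 - B * k.1 / A) ^ 2 / (C - B ^ 2 / A))) := by
  have hA := h.re_pos
  have hA0 : A ≠ 0 := by
    rintro rfl
    simp at hA
  set D : ℂ := C - B ^ 2 / A with hD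
  have h' : PD D (-I * B / A) (1 / A) := h.pt
  have hDre : 0 < D.re := h'.re_pos
  have hD0 : D ≠ 0 := by
    intro hh
    rw [hh] at hDre
    simp at hDre
  -- the left-hand side as an iterated sum
  have hs1 := (h.summable s r)
  have hs1' : Summable fun q : ℤ × ℤ => cexp (-π * (A * ((q.2 : ℂ) + s) ^ 2 +
      2 * B * ((q.2 : ℂ) + s) * ((q.1 : ℂ) + r) + C * ((q.1 : ℂ) + r) ^ 2)) :=
    (Equiv.prodComm ℤ ℤ).summable_iff.mp (by simpa [Function.comp_def] using hs1.of_norm)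
  have e1 : ∑' p : ℤ × ℤ, cexp (-π * (A * ((p.1 : ℂ) + s) ^ 2 +
      2 * B * ((p.1 : ℂ) + s) * ((p.2 : ℂ) + r) + C * ((p.2 : ℂ) + r) ^ 2)) =
      ∑' q : ℤ, ∑' p : ℤ, cexp (-π * (A * ((p : ℂ) + s) ^ 2 +
      2 * B * ((p : ℂ) + s) * ((q : ℂ) + r) + C * ((q : ℂ) + r) ^ 2)) := by
    rw [← (Equiv.prodComm ℤ ℤ).tsum_eq]
    exact hs1'.tsum_prod
  -- the inner sum
  have e2 : ∀ q : ℤ, ∑' p : ℤ, cexp (-π * (A * ((p : ℂ) + s) ^ 2 +
      2 * B * ((p : ℂ) + s) * ((q : ℂ) + r) + C * ((q : ℂ) + r) ^ 2)) =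
      1 / A ^ (1 / 2 : ℂ) * ∑' k : ℤ, cexp (2 * π * I * k * s) *
        cexp (-π * (D * ((q : ℂ) + r) ^ 2 + 2 * (-I * B / A) * ((q : ℂ) + r) * ((k : ℂ) + (0 : ℝ)) +
          (1 / A) * ((k : ℂ) + (0 : ℝ)) ^ 2)) := by
    intro q
    have h1 := pois1 hA (B * ((q : ℂ) + r)) s
    have h2 : ∀ p : ℤ, cexp (-π * (A * ((p : ℂ) + s) ^ 2 +
      2 * B * ((p : ℂ) + s) * ((q : ℂ) + r) + C * ((q : ℂ) + r) ^ 2)) =
      cexp (-π * (C * ((q : ℂ) + r) ^ 2)) *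
      cexp (-π * (A * ((p : ℂ) + s) ^ 2 + 2 * (B * ((q : ℂ) + r)) * ((p : ℂ) + s))) := by
      intro p
      rw [← Complex.exp_add]
      congr 1
      ring
    rw [tsum_congr h2, tsum_mul_left, h1, mul_left_comm, ← tsum_mul_left]
    congr 1
    refine tsum_congr fun k => ?_
    rw [← Complex.exp_add, ← Complex.exp_add]
    congr 1
    rw [hD]
    push_cast
    field_simp
    linear_combination ((k : ℂ) ^ 2) * I_sq
  rw [e1, tsum_congr e2, tsum_mul_left]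
  -- exchange the sums
  have hs2 : Summable fun q : ℤ × ℤ => cexp (2 * π * I * q.2 * s) *
        cexp (-π * (D * ((q.1 : ℂ) + r) ^ 2 + 2 * (-I * B / A) * ((q.1 : ℂ) + r) *
          ((q.2 : ℂ) + (0 : ℝ)) + (1 / A) * ((q.2 : ℂ) + (0 : ℝ)) ^ 2)) := by
    refine Summable.of_norm ((h'.summable r 0).congr fun q => ?_)
    rw [norm_mul]
    have : ‖cexp (2 * π * I * q.2 * s)‖ = 1 := by
      have e : 2 * (π : ℂ) * I * q.2 * s = ((2 * π * q.2 * s : ℝ) : ℂ) * I := by push_cast; ring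
      rw [e, norm_exp_ofReal_mul_I]
    rw [this, one_mul]
  have hcomm := Summable.tsum_comm (f := fun (q k : ℤ) => cexp (2 * π * I * k * s) *
        cexp (-π * (D * ((q : ℂ) + r) ^ 2 + 2 * (-I * B / A) * ((q : ℂ) + r) *
          ((k : ℂ) + (0 : ℝ)) + (1 / A) * ((k : ℂ) + (0 : ℝ)) ^ 2))) hs2
  rw [← hcomm]
  have e3 : ∀ k : ℤ, ∑' q : ℤ, cexp (2 * π * I * k * s) *
        cexp (-π * (D * ((q : ℂ) + r) ^ 2 + 2 * (-I * B / A) * ((q : ℂ) + r) *
          ((k : ℂ) + (0 : ℝ)) + (1 / A) * ((k : ℂ) + (0 : ℝ)) ^ 2)) =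
      1 / D ^ (1 / 2 : ℂ) * ∑' l : ℤ, cexp (2 * π * I * (k * s + l * r)) *
        cexp (-π * (k ^ 2 / A + (l - B * k / A) ^ 2 / D)) := by
    intro k
    have h1 := pois1 hDre (-I * B / A * k) r
    have h2 : ∀ q : ℤ, cexp (2 * π * I * k * s) *
        cexp (-π * (D * ((q : ℂ) + r) ^ 2 + 2 * (-I * B / A) * ((q : ℂ) + r) *
          ((k : ℂ) + (0 : ℝ)) + (1 / A) * ((k : ℂ) + (0 : ℝ)) ^ 2)) =
      (cexp (2 * π * I * k * s) * cexp (-π * ((1 / A) * (k : ℂ) ^ 2))) *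
      cexp (-π * (D * ((q : ℂ) + r) ^ 2 + 2 * (-I * B / A * k) * ((q : ℂ) + r))) := by
      intro q
      simp only [← Complex.exp_add]
      congr 1
      push_cast
      ring
    rw [tsum_congr h2, tsum_mul_left, h1, mul_left_comm, ← tsum_mul_left]
    congr 1
    refine tsum_congr fun l => ?_
    rw [← Complex.exp_add, ← Complex.exp_add, ← Complex.exp_add]
    congr 1
    field_simp
    linear_combination ((l * A - B * k) ^ 2) * I_sq
  rw [tsum_congr e3, tsum_mul_left]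
  -- back to the sum over pairs
  have hs3 : Summable fun k : ℤ × ℤ => cexp (2 * π * I * (k.1 * s + k.2 * r)) *
        cexp (-π * (k.1 ^ 2 / A + (k.2 - B * k.1 / A) ^ 2 / D)) := by
    have h'' := h'.pt
    refine Summable.of_norm ((h''.summable 0 0).congr fun k => ?_)
    rw [norm_mul]
    have : ‖cexp (2 * π * I * (k.1 * s + k.2 * r))‖ = 1 := by
      have e : 2 * (π : ℂ) * I * (k.1 * s + k.2 * r) =
        ((2 * π * (k.1 * s + k.2 * r) : ℝ) : ℂ) * I := by push_cast; ring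
      rw [e, norm_exp_ofReal_mul_I]
    rw [this, one_mul]
    congr 2
    push_cast
    field_simp
    linear_combination (B ^ 2 * (k.1 : ℂ) ^ 2 - 2 * A * B * k.1 * k.2) * I_sq
  rw [hs3.tsum_prod]
  ring

end Pool.Agent.Y672.DM
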