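import Pool.Agent.Y672.DM.Weil
import Pool.Agent.Y672.DM.FDef

/-!
# The transformation of the theta functions under `SL(2, ℤ)`
-/

set_option autoImplicit false

open Complex UpperHalfPlane ModularGroup MatrixGroups Matrix

namespace Pool.Agent.Y672.DM

open scoped Real

/-- the vector attached to a matrix -/
noncomputable def vg (g : SL(2, ℤ)) : ZMod 5 → ℂ := vv (g 0 0) (g 0 1) (g 1 0) (g 1 1)

/-- the quadratic residue symbol with complex values -/
noncomputable def cc (b : ZMod 5) : ℂ := (c5 b : ℂ)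

lemma det5 (g : SL(2, ℤ)) :
    ((g 0 0 : ℤ) : ZMod 5) * ((g 1 1 : ℤ) : ZMod 5) - ((g 0 1 : ℤ) : ZMod 5) *
      ((g 1 0 : ℤ) : ZMod 5) = 1 := by
  have h := g.det_coe
  rw [Matrix.det_fin_two] at h
  exact_mod_cast congrArg (Int.cast : ℤ → ZMod 5) h

lemma vg_one : vg 1 = cc := by
  funext x
  unfold vg vv cc
  simp [e5_zero]

lemma vg_mul_T (g : SL(2, ℤ)) (x : ZMod 5) : vg (g * T) x = vg g x * e5 (x ^ 2) := by
  rw [show vg g x = vv (g 0 0) (g 0 1) (g 1 0) (g 1 1) x from rfl, ← vv_T (det5 g) x]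
  unfold vg
  have h00 : (g * T) 0 0 = g 0 0 := by
    rw [Matrix.SpecialLinearGroup.coe_mul, Matrix.mul_apply, Fin.sum_univ_two]; simp [coe_T]
  have h01 : (g * T) 0 1 = g 0 0 + g 0 1 := by
    rw [Matrix.SpecialLinearGroup.coe_mul, Matrix.mul_apply, Fin.sum_univ_two]; simp [coe_T]
  have h10 : (g * T) 1 0 = g 1 0 := by
    rw [Matrix.SpecialLinearGroup.coe_mul, Matrix.mul_apply, Fin.sum_univ_two]; simp [coe_T]
  have h11 : (g * T) 1 1 = g 1 0 + g 1 1 := by
    rw [Matrix.SpecialLinearGroup.coe_mul, Matrix.mul_apply, Fin.sum_univ_two]; simp [coe_T]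
  rw [h00, h01, h10, h11]
  push_cast
  rfl

lemma vg_mul_T_inv (g : SL(2, ℤ)) (x : ZMod 5) : vg (g * T⁻¹) x = vg g x * e5 (-x ^ 2) := by
  have h := vg_mul_T (g * T⁻¹) x
  rw [inv_mul_cancel_right] at h
  rw [h, mul_assoc, ← e5_add, add_neg_cancel, e5_zero, mul_one]

lemma vg_mul_S (g : SL(2, ℤ)) : vg (g * S) = fh (vg g) := by
  rw [show vg g = vv (g 0 0) (g 0 1) (g 1 0) (g 1 1) from rfl, vv_S (det5 g)]
  unfold vg
  have h00 : (g * S) 0 0 = g 0 1 := by
    rw [Matrix.SpecialLinearGroup.coe_mul, Matrix.mul_apply, Fin.sum_univ_two]; simp [coe_S]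
  have h01 : (g * S) 0 1 = -g 0 0 := by
    rw [Matrix.SpecialLinearGroup.coe_mul, Matrix.mul_apply, Fin.sum_univ_two]; simp [coe_S]
  have h10 : (g * S) 1 0 = g 1 1 := by
    rw [Matrix.SpecialLinearGroup.coe_mul, Matrix.mul_apply, Fin.sum_univ_two]; simp [coe_S]
  have h11 : (g * S) 1 1 = -g 1 0 := by
    rw [Matrix.SpecialLinearGroup.coe_mul, Matrix.mul_apply, Fin.sum_univ_two]; simp [coe_S]
  rw [h00, h01, h10, h11]
  push_cast
  rfl

lemma vg_neg (g : SL(2, ℤ)) : vg (-g) = vg g := by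
  funext x
  rw [show vg g x = vv (g 0 0) (g 0 1) (g 1 0) (g 1 1) x from rfl, ← vv_neg]
  unfold vg
  have h : ∀ i j, (-g) i j = -(g i j) := fun i j => by simp
  rw [h, h, h, h]
  push_cast
  rfl

lemma S_inv_eq : (S : SL(2, ℤ))⁻¹ = -S := ModularGroup.S_inv

lemma Th_sub_one (f : ZMod 5 → ℂ) (z : ℂ) (v : ℝ) :
    Th f (z - 1) v = Th (fun b => f b * e5 (-b ^ 2)) z v := by
  have h := Th_add_one (fun b => f b * e5 (-b ^ 2)) (z - 1) v
  rw [sub_add_cancel] at h
  rw [h]
  congr 1
  funext b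
  show f b = f b * e5 (-b ^ 2) * e5 (b ^ 2)
  rw [mul_assoc, ← e5_add, neg_add_cancel, e5_zero, mul_one]

/-- the transformation formula -/
theorem Th_smul (g : SL(2, ℤ)) (z : ℍ) (v : ℝ) :
    Th cc ((g • z : ℍ) : ℂ) v = Th (vg g) (z : ℂ) v := by
  have hg : g ∈ Subgroup.closure ({S, T} : Set SL(2, ℤ)) := by
    rw [SpecialLinearGroup.SL2Z_generators]; trivial
  have key : ∀ z : ℍ, Th cc ((g • z : ℍ) : ℂ) v = Th (vg g) (z : ℂ) v := by
    refine Subgroup.closure_induction_right
      (p := fun g _ => ∀ z : ℍ, Th cc ((g • z : ℍ) : ℂ) v = Th (vg g) (z : ℂ) v) ?_ ?_ ?_ hg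
    · intro z
      rw [one_smul, vg_one]
    · intro g _ y hy ih z
      rw [mul_smul, ih]
      rcases hy with rfl | hy
      · rw [vg_mul_S]
        have h0 : ((S • z : ℍ) : ℂ) = -1 / z := by
          rw [modular_S_smul]
          show (-(z : ℂ))⁻¹ = -1 / z
          rw [inv_neg, neg_div, one_div]
        have hz0 : (z : ℂ) ≠ 0 := z.ne_zero
        rw [Th_inv _ (S • z).im_pos v, h0]
        congr 1
        field_simp
      · rw [Set.mem_singleton_iff] at hy
        subst hy
        have h0 : ((T • z : ℍ) : ℂ) = z + 1 := by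
          rw [modular_T_smul]
          push_cast
          simp [add_comm]
        rw [h0, Th_add_one]
        congr 1
        funext b
        exact (vg_mul_T g b).symm
    · intro g _ y hy ih z
      rw [mul_smul, ih]
      rcases hy with rfl | hy
      · have h1 : vg (g * S⁻¹) = fh (vg g) := by
          rw [S_inv_eq, mul_neg, vg_neg, vg_mul_S]
        have h0 : ((S⁻¹ • z : ℍ) : ℂ) = -1 / z := by
          rw [S_inv_eq, ModularGroup.SL_neg_smul, modular_S_smul]
          show (-(z : ℂ))⁻¹ = -1 / z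
          rw [inv_neg, neg_div, one_div]
        have hz0 : (z : ℂ) ≠ 0 := z.ne_zero
        rw [h1, Th_inv _ (S⁻¹ • z).im_pos v, h0]
        congr 1
        field_simp
      · rw [Set.mem_singleton_iff] at hy
        subst hy
        have h0 : ((T⁻¹ • z : ℍ) : ℂ) = z - 1 := by
          have := ModularGroup.coe_T_zpow_smul_eq (z := z) (n := -1)
          rw [_root_.zpow_neg_one] at this
          rw [this]
          push_cast
          ring
        rw [h0, Th_sub_one]
        congr 1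
        funext b
        exact (vg_mul_T_inv g b).symm
  exact key z

theorem FF_smul (g : SL(2, ℤ)) (z : ℍ) : FF cc ((g • z : ℍ) : ℂ) = FF (vg g) (z : ℂ) := by
  unfold FF
  refine intervalIntegral.integral_congr fun v _ => ?_
  simp only [Th_smul]

end Pool.Agent.Y672.DM
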