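import Pool.Agent.Y672.DM.Pois2

/-!
# The theta functions of the norm form of `ℤ[φ]`
-/

set_option autoImplicit false

open Complex

namespace Pool.Agent.Y672.DM

open scoped Real

/-- the norm of `m + n φ` -/
def nm (p : ℤ × ℤ) : ℤ := p.1 ^ 2 + p.1 * p.2 - p.2 ^ 2

/-- the class of `m + n φ` modulo `√5` -/
def cls (p : ℤ × ℤ) : ZMod 5 := ((p.1 + 3 * p.2 : ℤ) : ZMod 5)

/-- `m + n φ` -/
noncomputable def em (p : ℤ × ℤ) : ℝ := p.1 + p.2 * Real.goldenRatio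

/-- `m + n φ'` -/
noncomputable def em' (p : ℤ × ℤ) : ℝ := p.1 + p.2 * Real.goldenConj

/-- the Gaussian -/
noncomputable def ex (z : ℂ) (v : ℝ) (p : ℤ × ℤ) : ℂ :=
  cexp (2 * π * I * z.re * nm p / 5 -
    π * z.im / 5 * (em p ^ 2 * Real.exp v + em' p ^ 2 * Real.exp (-v) : ℝ))

/-- the theta function -/
noncomputable def Th (f : ZMod 5 → ℂ) (z : ℂ) (v : ℝ) : ℂ :=
  √z.im * ∑' p : ℤ × ℤ, f (cls p) * ex z v p

/-- the finite Fourier transform -/
noncomputable def fh (f : ZMod 5 → ℂ) (b : ZMod 5) : ℂ :=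
  (1 / (√5 : ℝ) : ℂ) * ∑ a : ZMod 5, f a * ZMod.stdAddChar (2 * a * b)

lemma em_mul (p : ℤ × ℤ) : em p * em' p = nm p := by
  have h1 := Real.goldenRatio_sq
  have h2 := Real.goldenRatio_add_goldenConj
  have h3 := Real.goldenRatio_mul_goldenConj
  unfold em em' nm
  push_cast
  linear_combination ((p.1 : ℝ) * p.2) * h2 + (p.2 : ℝ) ^ 2 * h3

lemma sq_form (X Y v : ℝ) :
    Real.exp (-|v|) * (X ^ 2 + Y ^ 2) ≤ (X + Y * Real.goldenRatio) ^ 2 * Real.exp v +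
      (X + Y * Real.goldenConj) ^ 2 * Real.exp (-v) := by
  have h1 : Real.exp (-|v|) ≤ Real.exp v := Real.exp_le_exp.mpr (neg_abs_le v)
  have h2 : Real.exp (-|v|) ≤ Real.exp (-v) := Real.exp_le_exp.mpr (by linarith [le_abs_self v])
  have h3 : (X + Y * Real.goldenRatio) ^ 2 + (X + Y * Real.goldenConj) ^ 2 =
      2 * X ^ 2 + 2 * X * Y + 3 * Y ^ 2 := by
    have e1 := Real.goldenRatio_sq
    have e2 := Real.goldenConj_sq
    have e3 := Real.goldenRatio_add_goldenConj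
    linear_combination (Y ^ 2) * e1 + Y ^ 2 * e2 + (2 * X * Y + Y ^ 2) * e3
  have h4 : Real.exp (-|v|) * (X ^ 2 + Y ^ 2) ≤
      Real.exp (-|v|) * ((X + Y * Real.goldenRatio) ^ 2 + (X + Y * Real.goldenConj) ^ 2) := by
    apply mul_le_mul_of_nonneg_left _ (Real.exp_pos _).le
    rw [h3]
    nlinarith [sq_nonneg (X + Y), sq_nonneg Y]
  nlinarith [mul_le_mul_of_nonneg_left h1 (sq_nonneg (X + Y * Real.goldenRatio)),
    mul_le_mul_of_nonneg_left h2 (sq_nonneg (X + Y * Real.goldenConj))]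

lemma norm_ex (z : ℂ) (v : ℝ) (p : ℤ × ℤ) : ‖ex z v p‖ =
    Real.exp (-(π * z.im / 5 * (em p ^ 2 * Real.exp v + em' p ^ 2 * Real.exp (-v)))) := by
  unfold ex
  rw [norm_exp]
  congr 1
  have e : (2 * π * I * z.re * nm p / 5 -
    π * z.im / 5 * (em p ^ 2 * Real.exp v + em' p ^ 2 * Real.exp (-v) : ℝ) : ℂ) =
    ((2 * π * z.re * nm p / 5 : ℝ) : ℂ) * I +
     ((-(π * z.im / 5 * (em p ^ 2 * Real.exp v + em' p ^ 2 * Real.exp (-v))) : ℝ) : ℂ) := by
    push_cast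
    ring
  rw [e, add_re, ofReal_re]
  simp

lemma norm_ex_le {z : ℂ} (hz : 0 < z.im) (v : ℝ) (p : ℤ × ℤ) : ‖ex z v p‖ ≤
    Real.exp (-π * p.1 ^ 2 * (z.im / 5 * Real.exp (-|v|))) *
      Real.exp (-π * p.2 ^ 2 * (z.im / 5 * Real.exp (-|v|))) := by
  rw [norm_ex, ← Real.exp_add]
  apply Real.exp_le_exp.mpr
  have h := sq_form p.1 p.2 v
  have h1 : 0 < π * z.im / 5 := by positivity
  have h2 := mul_le_mul_of_nonneg_left h h1.le
  unfold em em'
  nlinarith [h2]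

lemma summable_gauss {δ : ℝ} (hδ : 0 < δ) :
    Summable fun p : ℤ × ℤ => Real.exp (-π * p.1 ^ 2 * δ) * Real.exp (-π * p.2 ^ 2 * δ) := by
  have h1 : Summable fun n : ℤ => Real.exp (-π * (n : ℝ) ^ 2 * δ) := by
    simpa using (HurwitzZeta.hasSum_int_evenKernel 0 hδ).summable
  exact h1.mul_of_nonneg h1 (fun _ => (Real.exp_pos _).le) (fun _ => (Real.exp_pos _).le)

lemma summable_ex {z : ℂ} (hz : 0 < z.im) (v : ℝ) : Summable fun p : ℤ × ℤ => ‖ex z v p‖ :=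
  Summable.of_nonneg_of_le (fun _ => norm_nonneg _) (fun p => norm_ex_le hz v p)
    (summable_gauss (by positivity))

lemma summable_f {z : ℂ} (hz : 0 < z.im) (v : ℝ) (f : ZMod 5 → ℂ) :
    Summable fun p : ℤ × ℤ => f (cls p) * ex z v p := by
  obtain ⟨C, hC⟩ : ∃ C : ℝ, ∀ a, ‖f a‖ ≤ C := ⟨∑ a, ‖f a‖, fun a =>
    Finset.single_le_sum (f := fun a => ‖f a‖) (fun _ _ => norm_nonneg _) (Finset.mem_univ a)⟩
  refine Summable.of_norm_bounded ((summable_ex hz v).mul_left C) fun p => ?_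
  rw [norm_mul]
  exact mul_le_mul_of_nonneg_right (hC _) (norm_nonneg _)

/-- translation -/
lemma ex_add_one (z : ℂ) (v : ℝ) (p : ℤ × ℤ) :
    ex (z + 1) v p = ZMod.stdAddChar (cls p ^ 2) * ex z v p := by
  have e : (cls p ^ 2 : ZMod 5) = ((nm p : ℤ) : ZMod 5) := by
    unfold cls nm
    push_cast
    have h5 : (5 : ZMod 5) = 0 := by decide
    linear_combination ((p.1 : ZMod 5) * p.2 + 2 * (p.2 : ZMod 5) ^ 2) * h5
  rw [e, ZMod.stdAddChar_coe]
  unfold ex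
  rw [← Complex.exp_add]
  congr 1
  simp only [add_re, one_re, add_im, one_im, add_zero]
  push_cast
  ring

lemma Th_add_one (f : ZMod 5 → ℂ) (z : ℂ) (v : ℝ) :
    Th f (z + 1) v = Th (fun b => f b * ZMod.stdAddChar (b ^ 2)) z v := by
  unfold Th
  congr 1
  · simp
  · refine tsum_congr fun p => ?_
    rw [ex_add_one]
    ring

end Pool.Agent.Y672.DM
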