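import Pool.Agent.Y672.DM.Theta

/-!
# The transformation of the theta functions under `z ↦ -1/z`
-/

set_option autoImplicit false

open Complex

namespace Pool.Agent.Y672.DM

open scoped Real
open scoped goldenRatio

/-- splitting into classes modulo `√5` -/
def splitEquiv : ZMod 5 × (ℤ × ℤ) ≃ ℤ × ℤ where
  toFun q := ((q.1.val : ℤ) - q.2.1 + 2 * q.2.2, 2 * q.2.1 + q.2.2)
  invFun p := (cls p, (((cls p).val - p.1 + 2 * p.2) / 5, (2 * (p.1 - (cls p).val) + p.2) / 5))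
  left_inv q := by
    obtain ⟨a, i, j⟩ := q
    have h : cls ((a.val : ℤ) - i + 2 * j, 2 * i + j) = a := by
      unfold cls
      have h5 : (5 : ZMod 5) = 0 := by decide
      push_cast
      rw [ZMod.natCast_zmod_val]
      linear_combination ((i : ZMod 5) + j) * h5
    simp only [h, Prod.mk.injEq, true_and]
    constructor <;> omega
  right_inv p := by
    obtain ⟨m, n⟩ := p
    have h : ((5 : ℕ) : ℤ) ∣ (m + 3 * n) - ((cls (m, n)).val : ℤ) := by
      rw [← ZMod.intCast_zmod_eq_zero_iff_dvd]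
      push_cast
      rw [ZMod.natCast_zmod_val]
      unfold cls
      push_cast
      ring
    simp only [Prod.mk.injEq]
    set w : ℤ := ((cls (m, n)).val : ℤ)
    push_cast at h
    constructor <;> omega

lemma cls_split (a : ZMod 5) (i j : ℤ) : cls (splitEquiv (a, (i, j))) = a := by
  have := splitEquiv.left_inv (a, (i, j))
  exact congrArg Prod.fst this

lemma cpow_half_mul {A : ℂ} (hA : 0 < A.re) {R : ℝ} (hR : 0 < R) :
    A ^ (1 / 2 : ℂ) * ((R : ℂ) / A) ^ (1 / 2 : ℂ) = √R := by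
  have hA0 : A ≠ 0 := by
    rintro rfl
    simp at hA
  have harg : A.arg ≠ π := by
    intro h
    have := Complex.arg_eq_pi_iff.mp h
    linarith [this.1]
  have hR0 : (R : ℂ) / A ≠ 0 := div_ne_zero (by exact_mod_cast hR.ne') hA0
  have hlog : log ((R : ℂ) / A) = ((Real.log R : ℝ) : ℂ) + -log A := by
    rw [div_eq_mul_inv, Complex.log_ofReal_mul hR (inv_ne_zero hA0), Complex.log_inv _ harg]
  rw [cpow_def_of_ne_zero hA0, cpow_def_of_ne_zero hR0, ← Complex.exp_add, hlog]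
  have : log A * (1 / 2) + (((Real.log R : ℝ) : ℂ) + -log A) * (1 / 2) =
      ((Real.log R / 2 : ℝ) : ℂ) := by
    push_cast; ring
  rw [this, ← ofReal_exp]
  congr 1
  rw [Real.sqrt_eq_rpow, Real.rpow_def_of_pos hR]
  congr 1
  ring

/-- the coefficients of the binary form -/
noncomputable def cA (z : ℂ) (v : ℝ) : ℂ := 2 * I * z.re + z.im * (Real.exp v + Real.exp (-v) : ℝ)
noncomputable def cB (z : ℂ) (v : ℝ) : ℂ :=
  I * z.re + z.im * (φ * Real.exp v + ψ * Real.exp (-v) : ℝ)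
noncomputable def cC (z : ℂ) (v : ℝ) : ℂ :=
  -2 * I * z.re + z.im * (φ ^ 2 * Real.exp v + ψ ^ 2 * Real.exp (-v) : ℝ)

lemma pd_c {z : ℂ} (hz : 0 < z.im) (v : ℝ) : PD (cA z v) (cB z v) (cC z v) := by
  refine ⟨z.im * Real.exp (-|v|), by positivity, fun X Y => ?_⟩
  rw [form_re]
  have h := mul_le_mul_of_nonneg_left (sq_form X Y v) hz.le
  have hA : (cA z v).re = z.im * (Real.exp v + Real.exp (-v)) := by
    unfold cA
    rw [add_re, re_ofReal_mul, ofReal_re]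
    simp
  have hB : (cB z v).re = z.im * (φ * Real.exp v + ψ * Real.exp (-v)) := by
    unfold cB
    rw [add_re, re_ofReal_mul, ofReal_re]
    simp
  have hC : (cC z v).re = z.im * (φ ^ 2 * Real.exp v + ψ ^ 2 * Real.exp (-v)) := by
    unfold cC
    rw [add_re, re_ofReal_mul, ofReal_re]
    simp
  rw [hA, hB, hC]
  nlinarith [h]

lemma det_c (z : ℂ) (v : ℝ) : cA z v * cC z v - cB z v ^ 2 = ((5 * normSq z : ℝ) : ℂ) := by
  have h5 : cexp v * cexp (-v) = 1 := by rw [← Complex.exp_add]; simp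
  have key : ∀ p q : ℝ, p + q = 1 → p * q = -1 → p ^ 2 = p + 1 → q ^ 2 = q + 1 →
      (2 * I * z.re + z.im * (Real.exp v + Real.exp (-v) : ℝ)) *
      (-2 * I * z.re + z.im * (p ^ 2 * Real.exp v + q ^ 2 * Real.exp (-v) : ℝ)) -
      (I * z.re + z.im * (p * Real.exp v + q * Real.exp (-v) : ℝ)) ^ 2 =
      ((5 * normSq z : ℝ) : ℂ) := by
    intro p q h1 h2 h3 h4
    replace h1 : (p : ℂ) + q = 1 := by exact_mod_cast h1
    replace h2 : (p : ℂ) * q = -1 := by exact_mod_cast h2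
    replace h3 : (p : ℂ) ^ 2 = p + 1 := by exact_mod_cast h3
    replace h4 : (q : ℂ) ^ 2 = q + 1 := by exact_mod_cast h4
    rw [normSq_apply]
    push_cast
    linear_combination (-5 * (z.re : ℂ) ^ 2) * I_sq + (2 * I * z.re * z.im * cexp v) * h3 +
      (2 * I * z.re * z.im * cexp (-v)) * h4 + ((z.im : ℂ) ^ 2 * ((p : ℂ) - q) ^ 2) * h5 +
      ((z.im : ℂ) ^ 2 * ((p : ℂ) + q + 1)) * h1 - (4 * (z.im : ℂ) ^ 2) * h2
  exact key φ ψ Real.goldenRatio_add_goldenConj Real.goldenRatio_mul_goldenConj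
    Real.goldenRatio_sq Real.goldenConj_sq

/-- the exponent in the coordinates of `splitEquiv` -/
lemma ex_split (z : ℂ) (v : ℝ) (a : ZMod 5) (i j : ℤ) :
    ex z v (splitEquiv (a, (i, j))) =
      cexp (-π * (cA z v * ((i : ℂ) + (-(a.val : ℝ) / 5 : ℝ)) ^ 2 +
        2 * cB z v * ((i : ℂ) + (-(a.val : ℝ) / 5 : ℝ)) * ((j : ℂ) + (2 * (a.val : ℝ) / 5 : ℝ)) +
        cC z v * ((j : ℂ) + (2 * (a.val : ℝ) / 5 : ℝ)) ^ 2)) := by
  have f3 := Real.goldenRatio_sq
  have f4 := Real.goldenConj_sq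
  set X : ℝ := i + (-(a.val : ℝ) / 5) with hX
  set Y : ℝ := j + (2 * (a.val : ℝ) / 5) with hY
  have g : ∀ θ : ℝ, θ ^ 2 = θ + 1 → ((((a.val : ℤ) - i + 2 * j : ℤ) : ℝ) +
      ((2 * i + j : ℤ) : ℝ) * θ) ^ 2 = 5 * (X + Y * θ) ^ 2 := by
    intro θ hθ
    have e : (((a.val : ℤ) - i + 2 * j : ℤ) : ℝ) + ((2 * i + j : ℤ) : ℝ) * θ =
        (2 * θ - 1) * (X + Y * θ) := by
      rw [hX, hY]
      push_cast
      linear_combination (-2 * (j + (2 * (a.val : ℝ) / 5))) * hθ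
    rw [e]
    linear_combination (4 * (X + Y * θ) ^ 2) * hθ
  have e1 : em (splitEquiv (a, (i, j))) ^ 2 = 5 * (X + Y * φ) ^ 2 := g φ f3
  have e2 : em' (splitEquiv (a, (i, j))) ^ 2 = 5 * (X + Y * ψ) ^ 2 := g ψ f4
  have e3 : ((nm (splitEquiv (a, (i, j))) : ℝ)) = -5 * (X ^ 2 + X * Y - Y ^ 2) := by
    rw [hX, hY]
    unfold nm splitEquiv
    simp only [Equiv.coe_fn_mk]
    push_cast
    ring
  have e3' : ((nm (splitEquiv (a, (i, j))) : ℂ)) = ((-5 * (X ^ 2 + X * Y - Y ^ 2) : ℝ) : ℂ) := by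
    rw [← e3]
    push_cast
    rfl
  have hX' : (i : ℂ) + (-(a.val : ℝ) / 5 : ℝ) = (X : ℂ) := by rw [hX]; push_cast; ring
  have hY' : (j : ℂ) + (2 * (a.val : ℝ) / 5 : ℝ) = (Y : ℂ) := by rw [hY]; push_cast; ring
  unfold ex
  rw [e1, e2, e3', hX', hY']
  congr 1
  unfold cA cB cC
  push_cast
  ring

lemma sum_split (g : ℤ × ℤ → ℂ) (hg : Summable g) :
    ∑' p, g p = ∑ a : ZMod 5, ∑' q : ℤ × ℤ, g (splitEquiv (a, q)) := by
  rw [← splitEquiv.tsum_eq]
  have h : Summable fun q : ZMod 5 × (ℤ × ℤ) => g (splitEquiv q) :=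
    splitEquiv.summable_iff.mpr hg
  rw [h.tsum_prod, tsum_fintype]

/-- the Gaussian sum over one class -/
lemma class_sum {z : ℂ} (hz : 0 < z.im) (v : ℝ) (a : ZMod 5) :
    ∑' q : ℤ × ℤ, ex z v (splitEquiv (a, q)) =
      (1 / (√5 * ‖z‖ : ℝ) : ℂ) * ∑' p : ℤ × ℤ, ZMod.stdAddChar (2 * a * cls p) * ex (-1 / z) v p := by
  have hA := (pd_c hz v).re_pos
  have hA0 : cA z v ≠ 0 := by
    intro h
    rw [h] at hA
    simp at hA
  have hz0 : z ≠ 0 := by
    rintro rfl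
    simp at hz
  have hN : 0 < normSq z := normSq_pos.mpr hz0
  have hD : cC z v - cB z v ^ 2 / cA z v = ((5 * normSq z : ℝ) : ℂ) / cA z v := by
    rw [← det_c]
    field_simp
  have h := pois2 (pd_c hz v) (-(a.val : ℝ) / 5) (2 * (a.val : ℝ) / 5)
  have e0 : ∀ q : ℤ × ℤ, ex z v (splitEquiv (a, q)) =
      cexp (-π * (cA z v * ((q.1 : ℂ) + (-(a.val : ℝ) / 5 : ℝ)) ^ 2 +
        2 * cB z v * ((q.1 : ℂ) + (-(a.val : ℝ) / 5 : ℝ)) *
          ((q.2 : ℂ) + (2 * (a.val : ℝ) / 5 : ℝ)) +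
        cC z v * ((q.2 : ℂ) + (2 * (a.val : ℝ) / 5 : ℝ)) ^ 2)) := fun q => ex_split z v a q.1 q.2
  rw [tsum_congr e0, h, hD]
  have hc : 1 / cA z v ^ (1 / 2 : ℂ) * (1 / (((5 * normSq z : ℝ) : ℂ) / cA z v) ^ (1 / 2 : ℂ)) =
      (1 / (√5 * ‖z‖ : ℝ) : ℂ) := by
    rw [one_div_mul_one_div, cpow_half_mul hA (by positivity), Real.sqrt_mul (by norm_num),
      Complex.norm_def]
  rw [hc]
  congr 1
  -- reindex
  let σ : ℤ × ℤ ≃ ℤ × ℤ :=
    { toFun := fun k => (k.2, -k.1)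
      invFun := fun k => (-k.2, k.1)
      left_inv := fun k => by simp
      right_inv := fun k => by simp }
  rw [← σ.tsum_eq (fun p => (ZMod.stdAddChar (2 * a * cls p) : ℂ) * ex (-1 / z) v p)]
  refine tsum_congr fun k => ?_
  have hχ : (2 * a * cls (σ k) : ZMod 5) = (((a.val : ℤ) * (2 * k.2 - k.1) : ℤ) : ZMod 5) := by
    have h5 : (5 : ZMod 5) = 0 := by decide
    show 2 * a * cls (k.2, -k.1) = _
    unfold cls
    push_cast
    rw [ZMod.natCast_zmod_val]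
    linear_combination (-(a * (k.1 : ZMod 5))) * h5
  rw [hχ, ZMod.stdAddChar_coe]
  congr 1
  · congr 1
    push_cast
    ring
  · unfold ex
    congr 1
    have hre : (-1 / z).re = -z.re / normSq z := by
      rw [div_re]; simp
    have him : (-1 / z).im = z.im / normSq z := by
      rw [div_im]; simp; ring
    rw [hre, him]
    have e1 : em (σ k) = k.2 - k.1 * φ := by
      show (k.2 : ℝ) + ((-k.1 : ℤ) : ℝ) * φ = _
      push_cast
      ring
    have e2 : em' (σ k) = k.2 - k.1 * ψ := by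
      show (k.2 : ℝ) + ((-k.1 : ℤ) : ℝ) * ψ = _
      push_cast
      ring
    have e3 : ((nm (σ k) : ℤ) : ℂ) = (k.2 : ℂ) ^ 2 - k.2 * k.1 - k.1 ^ 2 := by
      show ((nm (k.2, -k.1) : ℤ) : ℂ) = _
      unfold nm
      push_cast
      ring
    rw [e1, e2, e3]
    have hN' : ((normSq z : ℝ) : ℂ) ≠ 0 := by exact_mod_cast hN.ne'
    have hdet := det_c z v
    have hquad : (k.1 : ℂ) ^ 2 / cA z v + (k.2 - cB z v * k.1 / cA z v) ^ 2 /
        (((5 * normSq z : ℝ) : ℂ) / cA z v) =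
        (cA z v * k.2 ^ 2 - 2 * cB z v * k.1 * k.2 + cC z v * k.1 ^ 2) /
          ((5 * normSq z : ℝ) : ℂ) := by
      have h5N : ((5 * normSq z : ℝ) : ℂ) ≠ 0 := by
        exact_mod_cast (by positivity : (5 * normSq z : ℝ) ≠ 0)
      field_simp
      rw [← hdet]
      ring
    rw [hquad]
    unfold cA cB cC
    push_cast
    field_simp
    ring

/-- **The transformation under `z ↦ -1/z`** -/
theorem Th_inv (f : ZMod 5 → ℂ) {z : ℂ} (hz : 0 < z.im) (v : ℝ) :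
    Th f z v = Th (fh f) (-1 / z) v := by
  have hz0 : z ≠ 0 := by
    rintro rfl
    simp at hz
  have hN : 0 < normSq z := normSq_pos.mpr hz0
  have him : (-1 / z).im = z.im / normSq z := by
    rw [div_im]; simp; ring
  have him0 : 0 < (-1 / z).im := by rw [him]; positivity
  unfold Th
  rw [sum_split _ (summable_f hz v f)]
  have e : ∀ a : ZMod 5, ∑' q : ℤ × ℤ, f (cls (splitEquiv (a, q))) * ex z v (splitEquiv (a, q)) =
      f a * ((1 / (√5 * ‖z‖ : ℝ) : ℂ) *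
        ∑' p : ℤ × ℤ, ZMod.stdAddChar (2 * a * cls p) * ex (-1 / z) v p) := by
    intro a
    rw [← class_sum hz v a, ← tsum_mul_left]
    refine tsum_congr fun q => ?_
    rw [show q = (q.1, q.2) from rfl, cls_split]
  rw [Finset.sum_congr rfl (fun a _ => e a)]
  have hs : ∀ a : ZMod 5, Summable fun p : ℤ × ℤ =>
      f a * ((1 / (√5 * ‖z‖ : ℝ) : ℂ) * (ZMod.stdAddChar (2 * a * cls p) * ex (-1 / z) v p)) :=
    fun a => ((summable_f him0 v (fun b => (ZMod.stdAddChar (2 * a * b) : ℂ))).mul_left _).mul_left _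
  have e2 : ∑ a : ZMod 5, f a * ((1 / (√5 * ‖z‖ : ℝ) : ℂ) *
        ∑' p : ℤ × ℤ, ZMod.stdAddChar (2 * a * cls p) * ex (-1 / z) v p) =
      ∑' p : ℤ × ℤ, ∑ a : ZMod 5, f a * ((1 / (√5 * ‖z‖ : ℝ) : ℂ) *
        (ZMod.stdAddChar (2 * a * cls p) * ex (-1 / z) v p)) := by
    rw [Summable.tsum_finsetSum (fun a _ => hs a)]
    refine Finset.sum_congr rfl fun a _ => ?_
    rw [tsum_mul_left, tsum_mul_left]
  rw [e2, ← tsum_mul_left, ← tsum_mul_left]
  refine tsum_congr fun p => ?_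
  unfold fh
  have hsq : √(-1 / z).im = √z.im / ‖z‖ := by
    rw [him, Real.sqrt_div hz.le, Complex.norm_def]
  rw [hsq]
  have hnz : (‖z‖ : ℂ) ≠ 0 := by
    exact_mod_cast (norm_pos_iff.mpr hz0).ne'
  have hs5 : ((√5 : ℝ) : ℂ) ≠ 0 := by
    exact_mod_cast (by positivity : (√5 : ℝ) ≠ 0)
  push_cast
  rw [Finset.mul_sum, Finset.mul_sum, Finset.sum_mul, Finset.mul_sum]
  refine Finset.sum_congr rfl fun a _ => ?_
  field_simp

end Pool.Agent.Y672.DM
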