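import Pool.Agent.Y672.DM.ThetaS
import Pool.Agent.Y672.DM.Arith

/-!
# The finite Weil representation: the orbit of the quadratic residue symbol modulo 5
-/

set_option autoImplicit false

open Complex

namespace Pool.Agent.Y672.DM

open scoped Real

/-- the additive character modulo 5 -/
noncomputable def e5 (x : ZMod 5) : ℂ := ZMod.stdAddChar x

lemma e5_add (x y : ZMod 5) : e5 (x + y) = e5 x * e5 y := AddChar.map_add_eq_mul _ x y

lemma e5_zero : e5 0 = 1 := AddChar.map_zero_eq_one _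

lemma e5_int (k : ℤ) : e5 (k : ZMod 5) = cexp (2 * π * I * k / 5) := by
  unfold e5
  rw [ZMod.stdAddChar_coe]
  push_cast
  rfl

lemma cos_two : Real.cos (2 * π / 5) = (√5 - 1) / 4 := by
  have h := Real.cos_pi_div_five
  have h2 := Real.cos_two_mul (π / 5)
  have e : 2 * π / 5 = 2 * (π / 5) := by ring
  rw [e, h2, h]
  have h5 : √5 ^ 2 = 5 := Real.sq_sqrt (by norm_num)
  nlinarith

lemma cos_four : Real.cos (4 * π / 5) = (-√5 - 1) / 4 := by
  have h := cos_two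
  have h2 := Real.cos_two_mul (2 * π / 5)
  have e : 4 * π / 5 = 2 * (2 * π / 5) := by ring
  rw [e, h2, h]
  have h5 : √5 ^ 2 = 5 := Real.sq_sqrt (by norm_num)
  nlinarith

lemma e5_14 : e5 1 + e5 4 = ((√5 : ℝ) - 1) / 2 := by
  have h1 : e5 1 = cexp ((2 * π / 5 : ℝ) * I) := by
    rw [show (1 : ZMod 5) = ((1 : ℤ) : ZMod 5) by norm_num, e5_int]
    congr 1
    push_cast
    ring
  have h4 : e5 4 = cexp (-(2 * π / 5 : ℝ) * I) := by
    rw [show (4 : ZMod 5) = ((-1 : ℤ) : ZMod 5) by decide, e5_int]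
    congr 1
    push_cast
    ring
  have h := cos_two
  rw [h1, h4]
  have := Complex.two_cos ((2 * π / 5 : ℝ) : ℂ)
  rw [← this, ← ofReal_cos, h]
  push_cast
  ring

lemma e5_23 : e5 2 + e5 3 = (-(√5 : ℝ) - 1) / 2 := by
  have h1 : e5 2 = cexp ((4 * π / 5 : ℝ) * I) := by
    rw [show (2 : ZMod 5) = ((2 : ℤ) : ZMod 5) by norm_num, e5_int]
    congr 1
    push_cast
    ring
  have h4 : e5 3 = cexp (-(4 * π / 5 : ℝ) * I) := by
    rw [show (3 : ZMod 5) = ((-2 : ℤ) : ZMod 5) by decide, e5_int]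
    congr 1
    push_cast
    ring
  have h := cos_four
  rw [h1, h4]
  have := Complex.two_cos ((4 * π / 5 : ℝ) : ℂ)
  rw [← this, ← ofReal_cos, h]
  push_cast
  ring

lemma sum5 (f : ZMod 5 → ℂ) : ∑ a, f a = f 0 + f 1 + f 2 + f 3 + f 4 := by
  exact Fin.sum_univ_five (fun a : Fin 5 => f a)

lemma sum5' (f : ZMod 5 → ℂ) : ∑ a, f a = f 0 + (f 1 + f 4) + (f 2 + f 3) := by
  rw [sum5]; ring

/-- the quadratic Gauss sums -/
lemma gauss_sq (A : ZMod 5) (hA : A ≠ 0) : ∑ y : ZMod 5, e5 (A * y ^ 2) = c5 A * (√5 : ℝ) := by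
  rw [sum5']
  have h0 := e5_zero
  have h14 := e5_14
  have h23 := e5_23
  revert hA
  revert A
  intro A
  fin_cases A
  · intro h; exact absurd rfl h
  · intro _
    show e5 ((1 : ZMod 5) * 0 ^ 2) + (e5 (1 * 1 ^ 2) + e5 (1 * 4 ^ 2)) +
      (e5 (1 * 2 ^ 2) + e5 (1 * 3 ^ 2)) = (c5 1 : ℂ) * (√5 : ℝ)
    rw [show (1 : ZMod 5) * 0 ^ 2 = 0 by decide, show (1 : ZMod 5) * 1 ^ 2 = 1 by decide,
      show (1 : ZMod 5) * 4 ^ 2 = 1 by decide, show (1 : ZMod 5) * 2 ^ 2 = 4 by decide,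
      show (1 : ZMod 5) * 3 ^ 2 = 4 by decide, show c5 1 = 1 by decide]
    push_cast
    linear_combination h0 + 2 * h14
  · intro _
    show e5 ((2 : ZMod 5) * 0 ^ 2) + (e5 (2 * 1 ^ 2) + e5 (2 * 4 ^ 2)) +
      (e5 (2 * 2 ^ 2) + e5 (2 * 3 ^ 2)) = (c5 2 : ℂ) * (√5 : ℝ)
    rw [show (2 : ZMod 5) * 0 ^ 2 = 0 by decide, show (2 : ZMod 5) * 1 ^ 2 = 2 by decide,
      show (2 : ZMod 5) * 4 ^ 2 = 2 by decide, show (2 : ZMod 5) * 2 ^ 2 = 3 by decide,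
      show (2 : ZMod 5) * 3 ^ 2 = 3 by decide, show c5 2 = -1 by decide]
    push_cast
    linear_combination h0 + 2 * h23
  · intro _
    show e5 ((3 : ZMod 5) * 0 ^ 2) + (e5 (3 * 1 ^ 2) + e5 (3 * 4 ^ 2)) +
      (e5 (3 * 2 ^ 2) + e5 (3 * 3 ^ 2)) = (c5 3 : ℂ) * (√5 : ℝ)
    rw [show (3 : ZMod 5) * 0 ^ 2 = 0 by decide, show (3 : ZMod 5) * 1 ^ 2 = 3 by decide,
      show (3 : ZMod 5) * 4 ^ 2 = 3 by decide, show (3 : ZMod 5) * 2 ^ 2 = 2 by decide,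
      show (3 : ZMod 5) * 3 ^ 2 = 2 by decide, show c5 3 = -1 by decide]
    push_cast
    linear_combination h0 + 2 * h23
  · intro _
    show e5 ((4 : ZMod 5) * 0 ^ 2) + (e5 (4 * 1 ^ 2) + e5 (4 * 4 ^ 2)) +
      (e5 (4 * 2 ^ 2) + e5 (4 * 3 ^ 2)) = (c5 4 : ℂ) * (√5 : ℝ)
    rw [show (4 : ZMod 5) * 0 ^ 2 = 0 by decide, show (4 : ZMod 5) * 1 ^ 2 = 4 by decide,
      show (4 : ZMod 5) * 4 ^ 2 = 4 by decide, show (4 : ZMod 5) * 2 ^ 2 = 1 by decide,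
      show (4 : ZMod 5) * 3 ^ 2 = 1 by decide, show c5 4 = 1 by decide]
    push_cast
    linear_combination h0 + 2 * h14

lemma mul_inv5 {A : ZMod 5} (hA : A ≠ 0) : A * A ^ 3 = 1 := by
  revert hA; revert A; decide

lemma gauss_lin (A w : ZMod 5) (hA : A ≠ 0) :
    ∑ y : ZMod 5, e5 (A * y ^ 2 + 2 * y * w) = c5 A * (√5 : ℝ) * e5 (-A ^ 3 * w ^ 2) := by
  have hi := mul_inv5 hA
  rw [← gauss_sq A hA, ← Equiv.sum_comp (Equiv.addRight (A ^ 3 * w)) (fun y => e5 (A * y ^ 2)),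
    Finset.sum_mul]
  refine Finset.sum_congr rfl fun y _ => ?_
  rw [← e5_add]
  congr 1
  simp only [Equiv.coe_addRight]
  linear_combination (-(A ^ 3 * w ^ 2) - 2 * y * w) * hi

lemma orth (w : ZMod 5) : ∑ y : ZMod 5, e5 (2 * y * w) = if w = 0 then 5 else 0 := by
  rw [sum5']
  have h0 := e5_zero
  have h14 := e5_14
  have h23 := e5_23
  fin_cases w
  · show e5 (2 * 0 * (0 : ZMod 5)) + (e5 (2 * 1 * 0) + e5 (2 * 4 * 0)) +
      (e5 (2 * 2 * 0) + e5 (2 * 3 * 0)) = if (0 : ZMod 5) = 0 then 5 else 0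
    simp [e5_zero]
    norm_num
  · show e5 (2 * 0 * (1 : ZMod 5)) + (e5 (2 * 1 * 1) + e5 (2 * 4 * 1)) +
      (e5 (2 * 2 * 1) + e5 (2 * 3 * 1)) = if (1 : ZMod 5) = 0 then 5 else 0
    rw [show (2 : ZMod 5) * 0 * 1 = 0 by decide, show (2 : ZMod 5) * 1 * 1 = 2 by decide,
      show (2 : ZMod 5) * 4 * 1 = 3 by decide, show (2 : ZMod 5) * 2 * 1 = 4 by decide,
      show (2 : ZMod 5) * 3 * 1 = 1 by decide, if_neg (by decide)]
    linear_combination h0 + h14 + h23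
  · show e5 (2 * 0 * (2 : ZMod 5)) + (e5 (2 * 1 * 2) + e5 (2 * 4 * 2)) +
      (e5 (2 * 2 * 2) + e5 (2 * 3 * 2)) = if (2 : ZMod 5) = 0 then 5 else 0
    rw [show (2 : ZMod 5) * 0 * 2 = 0 by decide, show (2 : ZMod 5) * 1 * 2 = 4 by decide,
      show (2 : ZMod 5) * 4 * 2 = 1 by decide, show (2 : ZMod 5) * 2 * 2 = 3 by decide,
      show (2 : ZMod 5) * 3 * 2 = 2 by decide, if_neg (by decide)]
    linear_combination h0 + h14 + h23
  · show e5 (2 * 0 * (3 : ZMod 5)) + (e5 (2 * 1 * 3) + e5 (2 * 4 * 3)) +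
      (e5 (2 * 2 * 3) + e5 (2 * 3 * 3)) = if (3 : ZMod 5) = 0 then 5 else 0
    rw [show (2 : ZMod 5) * 0 * 3 = 0 by decide, show (2 : ZMod 5) * 1 * 3 = 1 by decide,
      show (2 : ZMod 5) * 4 * 3 = 4 by decide, show (2 : ZMod 5) * 2 * 3 = 2 by decide,
      show (2 : ZMod 5) * 3 * 3 = 3 by decide, if_neg (by decide)]
    linear_combination h0 + h14 + h23
  · show e5 (2 * 0 * (4 : ZMod 5)) + (e5 (2 * 1 * 4) + e5 (2 * 4 * 4)) +
      (e5 (2 * 2 * 4) + e5 (2 * 3 * 4)) = if (4 : ZMod 5) = 0 then 5 else 0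
    rw [show (2 : ZMod 5) * 0 * 4 = 0 by decide, show (2 : ZMod 5) * 1 * 4 = 3 by decide,
      show (2 : ZMod 5) * 4 * 4 = 2 by decide, show (2 : ZMod 5) * 2 * 4 = 1 by decide,
      show (2 : ZMod 5) * 3 * 4 = 4 by decide, if_neg (by decide)]
    linear_combination h0 + h14 + h23

lemma c5_mul (x y : ZMod 5) : c5 (x * y) = c5 x * c5 y := by
  revert x y; decide

/-- the Gauss sum of the quadratic character -/
lemma gauss_char (x : ZMod 5) : ∑ y : ZMod 5, (c5 y : ℂ) * e5 (2 * y * x) = -(√5 : ℝ) * c5 x := by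
  rw [sum5']
  have h0 := e5_zero
  have h14 := e5_14
  have h23 := e5_23
  rw [show c5 0 = 0 by decide, show c5 1 = 1 by decide, show c5 2 = -1 by decide,
    show c5 3 = -1 by decide, show c5 4 = 1 by decide]
  fin_cases x
  · show ((0 : ℤ) : ℂ) * e5 (2 * 0 * (0 : ZMod 5)) + (((1 : ℤ) : ℂ) * e5 (2 * 1 * 0) +
      ((1 : ℤ) : ℂ) * e5 (2 * 4 * 0)) + (((-1 : ℤ) : ℂ) * e5 (2 * 2 * 0) +
      ((-1 : ℤ) : ℂ) * e5 (2 * 3 * 0)) = -(√5 : ℝ) * (c5 0 : ℂ)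
    rw [show c5 0 = 0 by decide]
    simp [e5_zero]
  · show ((0 : ℤ) : ℂ) * e5 (2 * 0 * (1 : ZMod 5)) + (((1 : ℤ) : ℂ) * e5 (2 * 1 * 1) +
      ((1 : ℤ) : ℂ) * e5 (2 * 4 * 1)) + (((-1 : ℤ) : ℂ) * e5 (2 * 2 * 1) +
      ((-1 : ℤ) : ℂ) * e5 (2 * 3 * 1)) = -(√5 : ℝ) * (c5 1 : ℂ)
    rw [show (2 : ZMod 5) * 1 * 1 = 2 by decide,
      show (2 : ZMod 5) * 4 * 1 = 3 by decide, show (2 : ZMod 5) * 2 * 1 = 4 by decide,
      show (2 : ZMod 5) * 3 * 1 = 1 by decide, show c5 1 = 1 by decide]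
    push_cast
    linear_combination h23 - h14
  · show ((0 : ℤ) : ℂ) * e5 (2 * 0 * (2 : ZMod 5)) + (((1 : ℤ) : ℂ) * e5 (2 * 1 * 2) +
      ((1 : ℤ) : ℂ) * e5 (2 * 4 * 2)) + (((-1 : ℤ) : ℂ) * e5 (2 * 2 * 2) +
      ((-1 : ℤ) : ℂ) * e5 (2 * 3 * 2)) = -(√5 : ℝ) * (c5 2 : ℂ)
    rw [show (2 : ZMod 5) * 1 * 2 = 4 by decide,
      show (2 : ZMod 5) * 4 * 2 = 1 by decide, show (2 : ZMod 5) * 2 * 2 = 3 by decide,
      show (2 : ZMod 5) * 3 * 2 = 2 by decide, show c5 2 = -1 by decide]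
    push_cast
    linear_combination h14 - h23
  · show ((0 : ℤ) : ℂ) * e5 (2 * 0 * (3 : ZMod 5)) + (((1 : ℤ) : ℂ) * e5 (2 * 1 * 3) +
      ((1 : ℤ) : ℂ) * e5 (2 * 4 * 3)) + (((-1 : ℤ) : ℂ) * e5 (2 * 2 * 3) +
      ((-1 : ℤ) : ℂ) * e5 (2 * 3 * 3)) = -(√5 : ℝ) * (c5 3 : ℂ)
    rw [show (2 : ZMod 5) * 1 * 3 = 1 by decide,
      show (2 : ZMod 5) * 4 * 3 = 4 by decide, show (2 : ZMod 5) * 2 * 3 = 2 by decide,
      show (2 : ZMod 5) * 3 * 3 = 3 by decide, show c5 3 = -1 by decide]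
    push_cast
    linear_combination h14 - h23
  · show ((0 : ℤ) : ℂ) * e5 (2 * 0 * (4 : ZMod 5)) + (((1 : ℤ) : ℂ) * e5 (2 * 1 * 4) +
      ((1 : ℤ) : ℂ) * e5 (2 * 4 * 4)) + (((-1 : ℤ) : ℂ) * e5 (2 * 2 * 4) +
      ((-1 : ℤ) : ℂ) * e5 (2 * 3 * 4)) = -(√5 : ℝ) * (c5 4 : ℂ)
    rw [show (2 : ZMod 5) * 1 * 4 = 3 by decide,
      show (2 : ZMod 5) * 4 * 4 = 2 by decide, show (2 : ZMod 5) * 2 * 4 = 1 by decide,
      show (2 : ZMod 5) * 3 * 4 = 4 by decide, show c5 4 = 1 by decide]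
    push_cast
    linear_combination h23 - h14

/-- the vectors of the orbit -/
noncomputable def vv (a b c d : ZMod 5) (x : ZMod 5) : ℂ :=
  if c = 0 then c5 x * e5 (b * d * x ^ 2)
  else (1 / (√5 : ℝ) : ℂ) * e5 (c ^ 3 * d * x ^ 2) *
    ∑ y : ZMod 5, c5 y * e5 (a * c * y ^ 2) * e5 (2 * y * x)

lemma vv_neg (a b c d x : ZMod 5) : vv (-a) (-b) (-c) (-d) x = vv a b c d x := by
  unfold vv
  have h : (-c) ^ 3 * -d = c ^ 3 * d := by ring
  simp only [neg_eq_zero, h, neg_mul_neg]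

lemma vv_T {a b c d : ZMod 5} (h : a * d - b * c = 1) (x : ZMod 5) :
    vv a (a + b) c (c + d) x = vv a b c d x * e5 (x ^ 2) := by
  unfold vv
  by_cases hc : c = 0
  · rw [if_pos hc, if_pos hc, mul_assoc (c5 x : ℂ), ← e5_add]
    congr 2
    subst hc
    linear_combination (x ^ 2) * h
  · rw [if_neg hc, if_neg hc]
    have hi := mul_inv5 hc
    have : e5 (c ^ 3 * (c + d) * x ^ 2) = e5 (c ^ 3 * d * x ^ 2) * e5 (x ^ 2) := by
      rw [← e5_add]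
      congr 1
      linear_combination (x ^ 2) * hi
    rw [this]
    ring

lemma sqrt5_mul : (1 / (√5 : ℝ) : ℂ) * (1 / (√5 : ℝ) : ℂ) * 5 = 1 := by
  have h5 : ((√5 : ℝ) : ℂ) ^ 2 = 5 := by
    rw [← ofReal_pow, Real.sq_sqrt (by norm_num)]
    norm_num
  have h : ((√5 : ℝ) : ℂ) ≠ 0 := by
    intro h
    rw [h] at h5
    norm_num at h5
  field_simp
  rw [h5]

lemma sqrt5_mul' : (1 / (√5 : ℝ) : ℂ) * (√5 : ℝ) = 1 := by
  have h5 : ((√5 : ℝ) : ℂ) ^ 2 = 5 := by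
    rw [← ofReal_pow, Real.sq_sqrt (by norm_num)]
    norm_num
  have h : ((√5 : ℝ) : ℂ) ≠ 0 := by
    intro h
    rw [h] at h5
    norm_num at h5
  field_simp

lemma e5_mul_comm_sum (A : ZMod 5) (x : ZMod 5) (f : ZMod 5 → ℂ) :
    ∑ z : ZMod 5, e5 (A * z ^ 2) * (∑ y : ZMod 5, f y * e5 (2 * y * z)) * e5 (2 * z * x) =
      ∑ y : ZMod 5, f y * ∑ z : ZMod 5, e5 (A * z ^ 2 + 2 * z * (y + x)) := by
  simp only [Finset.mul_sum, Finset.sum_mul]
  rw [Finset.sum_comm]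
  refine Finset.sum_congr rfl fun y _ => Finset.sum_congr rfl fun z _ => ?_
  have : e5 (A * z ^ 2 + 2 * z * (y + x)) = e5 (A * z ^ 2) * e5 (2 * y * z) * e5 (2 * z * x) := by
    rw [← e5_add, ← e5_add]
    congr 1
    ring
  rw [this]
  ring

lemma c5_neg (x : ZMod 5) : c5 (-x) = c5 x := by revert x; decide

lemma ne_aux {c d : ZMod 5} (hc : c ≠ 0) (hd : d ≠ 0) : c ^ 3 * d ≠ 0 := by
  revert hc hd; revert c d; decide

lemma key_aux {a b c d : ZMod 5} (x y : ZMod 5) (hc : c ≠ 0) (hd : d ≠ 0)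
    (h : a * d - b * c = 1) :
    a * c * (-(d * c ^ 3) * y) ^ 2 - (c ^ 3 * d) ^ 3 * (-(d * c ^ 3) * y + x) ^ 2 =
      d ^ 3 * -c * x ^ 2 + (b * d * y ^ 2 + 2 * y * x) := by
  have hci := mul_inv5 hc
  have hdi := mul_inv5 hd
  have h9 : (c ^ 3 * d) ^ 3 = c * d ^ 3 := by
    linear_combination (c * d ^ 3 * (c ^ 4 + 1)) * hci
  rw [h9]
  linear_combination (a * c ^ 3 * d ^ 2 * y ^ 2 - c ^ 3 * d ^ 5 * y ^ 2 + 2 * x * y * d ^ 4 +
    b * d * y ^ 2) * hci + (-c ^ 3 * d * y ^ 2 + 2 * x * y) * hdi + (c ^ 3 * d * y ^ 2) * h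

lemma vv_S {a b c d : ZMod 5} (h : a * d - b * c = 1) :
    fh (vv a b c d) = vv b (-a) d (-c) := by
  funext x
  unfold fh
  have hfh : ∀ z : ZMod 5, vv a b c d z * (ZMod.stdAddChar (2 * z * x) : ℂ) =
      vv a b c d z * e5 (2 * z * x) := fun _ => rfl
  rw [Finset.sum_congr rfl fun z _ => hfh z]
  by_cases hc : c = 0
  · -- c = 0
    have hd : d ≠ 0 := by
      rintro rfl
      subst hc
      rw [mul_zero, mul_zero, sub_zero] at h
      exact absurd h (by decide)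
    unfold vv
    rw [if_neg hd]
    have e : ∀ z : ZMod 5, (if c = 0 then (c5 z : ℂ) * e5 (b * d * z ^ 2)
        else (1 / (√5 : ℝ) : ℂ) * e5 (c ^ 3 * d * z ^ 2) *
          ∑ y : ZMod 5, c5 y * e5 (a * c * y ^ 2) * e5 (2 * y * z)) * e5 (2 * z * x) =
        c5 z * e5 (b * d * z ^ 2) * e5 (2 * z * x) := by
      intro z
      rw [if_pos hc]
    rw [Finset.sum_congr rfl fun z _ => e z]
    subst hc
    rw [show d ^ 3 * -0 * x ^ 2 = 0 by ring, e5_zero, mul_one]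
  · have e : ∀ z : ZMod 5, vv a b c d z * e5 (2 * z * x) =
        (1 / (√5 : ℝ) : ℂ) * (e5 (c ^ 3 * d * z ^ 2) *
          (∑ y : ZMod 5, (c5 y * e5 (a * c * y ^ 2)) * e5 (2 * y * z)) * e5 (2 * z * x)) := by
      intro z
      unfold vv
      rw [if_neg hc]
      ring
    rw [Finset.sum_congr rfl fun z _ => e z, ← Finset.mul_sum, e5_mul_comm_sum]
    have hci := mul_inv5 hc
    by_cases hd : d = 0
    · -- d = 0
      subst hd
      have e2 : ∀ y : ZMod 5, (c5 y * e5 (a * c * y ^ 2)) *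
          ∑ z : ZMod 5, e5 (c ^ 3 * 0 * z ^ 2 + 2 * z * (y + x)) =
          if y = -x then 5 * (c5 x * e5 (a * c * x ^ 2)) else 0 := by
        intro y
        have : ∀ z : ZMod 5, e5 (c ^ 3 * 0 * z ^ 2 + 2 * z * (y + x)) = e5 (2 * z * (y + x)) := by
          intro z
          congr 1
          ring
        rw [Finset.sum_congr rfl fun z _ => this z, orth]
        by_cases hy : y = -x
        · rw [if_pos (by rw [hy]; ring), if_pos hy, hy]
          rw [c5_neg, show a * c * (-x) ^ 2 = a * c * x ^ 2 by ring]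
          ring
        · rw [if_neg (fun h => hy (eq_neg_of_add_eq_zero_left h)), if_neg hy, mul_zero]
      rw [Finset.sum_congr rfl fun y _ => e2 y, Finset.sum_ite_eq' Finset.univ (-x),
        if_pos (Finset.mem_univ _)]
      unfold vv
      rw [if_pos rfl, show -a * -c * x ^ 2 = a * c * x ^ 2 by ring]
      linear_combination (c5 x * e5 (a * c * x ^ 2)) * sqrt5_mul
    · -- both nonzero
      have hdi := mul_inv5 hd
      have hA : c ^ 3 * d ≠ 0 := ne_aux hc hd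
      have e2 : ∀ y : ZMod 5, (c5 y * e5 (a * c * y ^ 2)) *
          ∑ z : ZMod 5, e5 (c ^ 3 * d * z ^ 2 + 2 * z * (y + x)) =
          (√5 : ℝ) * (c5 (c ^ 3 * d) * c5 y *
            e5 (a * c * y ^ 2 - (c ^ 3 * d) ^ 3 * (y + x) ^ 2)) := by
        intro y
        rw [gauss_lin _ _ hA]
        have : e5 (a * c * y ^ 2 - (c ^ 3 * d) ^ 3 * (y + x) ^ 2) =
            e5 (a * c * y ^ 2) * e5 (-(c ^ 3 * d) ^ 3 * (y + x) ^ 2) := by
          rw [← e5_add]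
          congr 1
          ring
        rw [this]
        ring
      rw [Finset.sum_congr rfl fun y _ => e2 y, ← Finset.mul_sum]
      unfold vv
      rw [if_neg hd]
      -- reindex `y = - d c⁻¹ y'`
      have hu : Function.Bijective (fun y : ZMod 5 => -(d * c ^ 3) * y) := by
        have hinj : Function.Injective (fun y : ZMod 5 => -(d * c ^ 3) * y) := by
          intro y1 y2 hy
          simp only at hy
          have hh : (d ^ 3 * c) * (-(d * c ^ 3) * y1) = (d ^ 3 * c) * (-(d * c ^ 3) * y2) := by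
            rw [hy]
          have h1 : ∀ y : ZMod 5, (d ^ 3 * c) * (-(d * c ^ 3) * y) = -y := by
            intro y
            linear_combination (-(c * c ^ 3) * y) * hdi - y * hci
          rw [h1, h1] at hh
          exact neg_inj.mp hh
        exact Finite.injective_iff_bijective.mp hinj
      rw [← Function.Bijective.sum_comp hu (fun y => (c5 (c ^ 3 * d) : ℂ) * c5 y *
            e5 (a * c * y ^ 2 - (c ^ 3 * d) ^ 3 * (y + x) ^ 2))]
      have hcc : ∀ u y : ZMod 5, u ≠ 0 → c5 u * c5 (-u * y) = c5 y := by decide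
      have e3 : ∀ y : ZMod 5, (c5 (c ^ 3 * d) : ℂ) * c5 (-(d * c ^ 3) * y) *
            e5 (a * c * (-(d * c ^ 3) * y) ^ 2 - (c ^ 3 * d) ^ 3 * (-(d * c ^ 3) * y + x) ^ 2) =
          e5 (d ^ 3 * -c * x ^ 2) * (c5 y * e5 (b * d * y ^ 2) * e5 (2 * y * x)) := by
        intro y
        have h1 := hcc (c ^ 3 * d) y hA
        have h1' : (c5 (c ^ 3 * d) : ℂ) * c5 (-(d * c ^ 3) * y) = c5 y := by
          rw [show -(d * c ^ 3) * y = -(c ^ 3 * d) * y by ring]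
          exact_mod_cast h1
        rw [h1']
        have h2 : e5 (a * c * (-(d * c ^ 3) * y) ^ 2 -
            (c ^ 3 * d) ^ 3 * (-(d * c ^ 3) * y + x) ^ 2) =
            e5 (d ^ 3 * -c * x ^ 2) * (e5 (b * d * y ^ 2) * e5 (2 * y * x)) := by
          rw [← e5_add, ← e5_add]
          congr 1
          exact key_aux x y hc hd h
        rw [h2]
        ring
      rw [Finset.sum_congr rfl fun y _ => e3 y, ← Finset.mul_sum]
      linear_combination ((1 / (√5 : ℝ) : ℂ) * e5 (d ^ 3 * -c * x ^ 2) *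
        ∑ y : ZMod 5, (c5 y * e5 (b * d * y ^ 2) * e5 (2 * y * x))) * sqrt5_mul'

end Pool.Agent.Y672.DM
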